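import Mathlib

/-!
# Rotation snarks: definitions

Conventions of problem MP_3688cb_co.
-/

set_option autoImplicit false

namespace Pool.Agent.N366.RS

/-- The number of vertices of `T_i` at distance `d ≤ i` from the centre. -/
def width (d : ℕ) : ℕ := if d = 0 then 1 else 3 * 2 ^ (d - 1)

theorem width_pos (d : ℕ) : 0 < width d := by
  unfold width
  split_ifs <;> positivity

/-- The vertices of the tree `T_i`, drawn in the plane with all leaves on a circle: the vertex
`(d, c)` has distance `d` from the centre `(0, 0)`, and `c = 0, 1, …, width d - 1` numbers the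
vertices at distance `d` clockwise. -/
abbrev Node (i : ℕ) : Type := {p : ℕ × ℕ // p.1 ≤ i ∧ p.2 < width p.1}

/-- `q` is a child of `p`: the centre has the children `(1, 0)`, `(1, 1)`, `(1, 2)`, and `(d, c)`,
`d ≥ 1`, has the children `(d + 1, 2 c)` and `(d + 1, 2 c + 1)`. -/
def IsChild (p q : ℕ × ℕ) : Prop := q.1 = p.1 + 1 ∧ (p.1 = 0 ∨ p.2 = q.2 / 2)

/-- The tree `T_i`. -/
def tree (i : ℕ) : SimpleGraph (Node i) where
  Adj p q := IsChild p.1 q.1 ∨ IsChild q.1 p.1
  symm := ⟨fun _ _ h => h.symm⟩
  loopless := ⟨fun _ h => by rcases h with h | h <;> exact absurd h.1 (by omega)⟩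

/-- The leaf of `T_i` with the label `a`, taken modulo the number `l_i = width i` of leaves. -/
def leaf (i a : ℕ) : Node i := ⟨(i, a % width i), le_rfl, Nat.mod_lt _ (width_pos i)⟩

/-- A snark: a cubic graph which is cyclically 4-edge-connected (whenever fewer than four edges are
deleted, the result does not have two components that both contain a cycle), has girth at least 5
and has no proper 3-edge-colouring. -/
structure IsSnark {V : Type} (G : SimpleGraph V) : Prop where
  cubic : ∀ v, (G.neighborSet v).ncard = 3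
  cyclic : ∀ D : Set (Sym2 V), D ⊆ G.edgeSet → D.ncard < 4 → ∀ (u v : V)
    (c : (G.deleteEdges D).Walk u u) (d : (G.deleteEdges D).Walk v v), c.IsCycle → d.IsCycle →
    (G.deleteEdges D).Reachable u v
  girth : ∀ (v : V) (c : G.Walk v v), c.IsCycle → 5 ≤ c.length
  uncolourable : ¬ ∃ f : Sym2 V → Fin 3, ∀ u v w : V, G.Adj u v → G.Adj u w → v ≠ w →
    f s(u, v) ≠ f s(u, w)

/-- A rotation `T_i`-snark: a snark with a spanning copy of `T_i` (given by `φ`) such that the
rotation by one third of the leaves, `a ↦ a + l_i / 3`, maps edges joining leaves to edges. -/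
def IsRotationTSnark (i : ℕ) {V : Type} (G : SimpleGraph V) : Prop :=
  2 ≤ i ∧ IsSnark G ∧ ∃ φ : Node i ≃ V,
    (∀ p q, (tree i).Adj p q → G.Adj (φ p) (φ q)) ∧
    ∀ a b : ℕ, G.Adj (φ (leaf i a)) (φ (leaf i b)) →
      G.Adj (φ (leaf i (a + width i / 3))) (φ (leaf i (b + width i / 3)))

end Pool.Agent.N366.RS
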