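import Pool.Agent.N366.RS.Defs

set_option autoImplicit false

namespace Pool.Agent.N366.RS

variable {V E L : Type}

theorem fin3 (P : Fin 3 → Prop) : (∃ k, P k) ↔ (P 0 ∨ P 1 ∨ P 2) := by
  constructor
  · rintro ⟨k, hk⟩
    fin_cases k
    · exact Or.inl hk
    · exact Or.inr (Or.inl hk)
    · exact Or.inr (Or.inr hk)
  · rintro (h | h | h)
    · exact ⟨0, h⟩
    · exact ⟨1, h⟩
    · exact ⟨2, h⟩

theorem tr_inj : Function.Injective (tr : Half E L → _) := by
  intro a b h
  cases a <;> cases b <;> simp_all [tr]

theorem incG0 (σ : Equiv.Perm L) (l : L) (z : Fin 30) : incG (E := E) σ l z 0 = .up (.inr (l, z)) := by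
  simp [incG]

theorem incG1 (σ : Equiv.Perm L) (l : L) (z : Fin 30) : incG (E := E) σ l z 1 =
    if lf z then .out (l, pos z) else .up (.inr (l, c1 z)) := by
  simp [incG]

theorem incG2 (σ : Equiv.Perm L) (l : L) (z : Fin 30) : incG (E := E) σ l z 2 =
    if lf z then .inn ((σs σ).symm (l, pos z)) else .up (.inr (l, c2 z)) := by
  simp [incG]

theorem base_step {S : Sys V E L} (h : Base S) : Base (step S) where
  ne := by
    rintro (e | ⟨l, z⟩)
    · have := h.ne e
      simpa [step, ts] using this
    · by_cases h0 : z = 0
      · simp [step, ts, h0]
      · by_cases h1 : z = 15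
        · simp [step, ts, h1]
        · have := pz_ne z h0 h1
          simp only [step, ts, h0, h1, if_false, Sum.map_inr, id, ne_eq, Sum.inr.injEq, Prod.mk.injEq,
            true_and]
          exact fun h2 => this h2.symm
  s1 := by
    rintro ⟨l, m⟩ h1
    by_cases h2 : m = 15
    · subst h2
      simp only [step, σs_last, Prod.mk.injEq] at h1
      exact absurd h1.2 (by decide)
    · simp only [step, σs_ne _ _ _ h2, Prod.mk.injEq, true_and] at h1
      have : ∀ m : Fin 16, m + 1 ≠ m := by decide
      exact this m h1
  s2 := by
    rintro ⟨l, m⟩ h1
    by_cases h2 : m = 15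
    · subst h2
      simp only [step, σs_last] at h1
      rw [σs_ne _ _ _ (by decide)] at h1
      simp only [Prod.mk.injEq] at h1
      exact absurd h1.2 (by decide)
    · simp only [step, σs_ne _ _ _ h2] at h1
      by_cases h3 : m + 1 = 15
      · rw [h3, σs_last] at h1
        simp only [Prod.mk.injEq] at h1
        have h4 := h1.2
        subst h4
        exact absurd h3 (by decide)
      · rw [σs_ne _ _ _ h3] at h1
        simp only [Prod.mk.injEq, true_and] at h1
        have : ∀ m : Fin 16, m + 1 + 1 ≠ m := by decide
        exact this m h1
  inj := by
    rintro ⟨l, m⟩ ⟨l', m'⟩ h1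
    simp only [step, Sum.inr.injEq, Prod.mk.injEq] at h1
    rw [h1.1, path_inj h1.2]
  inc_inj := by
    rintro (v | ⟨l, z⟩)
    · exact tr_inj.comp (h.inc_inj v)
    · intro a b hab
      simp only [step] at hab
      by_cases hz : lf z = true
      · fin_cases a <;> fin_cases b <;> first | rfl | (simp [incG, hz] at hab)
      · have hz' : lf z = false := by simpa using hz
        obtain ⟨-, -, -, -, h5, h6, h7⟩ := kid0 z hz'
        fin_cases a <;> fin_cases b <;> first | rfl | (simp [incG, hz'] at hab; tauto)
  shape := by
    rintro (v | ⟨l, z⟩)
    · left
      intro k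
      simp only [step]
      rcases S.inc v k with e | l | l
      · exact ⟨_, rfl⟩
      · exact ⟨_, rfl⟩
      · exact ⟨_, rfl⟩
    · by_cases hz : lf z = true
      · right
        refine ⟨.inr (l, z), (l, pos z), ?_, ?_, ?_, ?_⟩
        · simp only [step, path_pos z hz]
        · simp only [step, incG0]
        · simp only [step, incG1, hz, if_true]
        · simp only [step, incG2, hz, if_true]
      · left
        have hz' : lf z = false := by simpa using hz
        intro k
        simp only [step, incG, hz', Bool.false_eq_true, if_false]
        by_cases h0 : k = 0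
        · exact ⟨_, by rw [if_pos h0]⟩
        · by_cases h1 : k = 1
          · exact ⟨_, by rw [if_neg h0, if_pos h1]⟩
          · exact ⟨_, by rw [if_neg h0, if_neg h1]⟩
  inc_iff := by
    rintro (v | ⟨l, z⟩) h'
    · rcases h' with (e | ⟨l', z'⟩) | ⟨l', m⟩ | ⟨l', m⟩
      · have := h.inc_iff v (.up e)
        simp only [At] at this
        simp only [At, step, Sum.map_inl, Sum.inl.injEq, ts]
        rw [this]
        constructor
        · rintro ⟨k, hk⟩
          exact ⟨k, by rw [hk]; rfl⟩
        · rintro ⟨k, hk⟩
          exact ⟨k, tr_inj hk⟩
      · simp only [At, step, Sum.map_inr, id, reduceCtorEq, false_or, ts]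
        constructor
        · intro h1
          by_cases h0 : z' = 0
          · subst h0
            simp only [if_true, Sum.inl.injEq] at h1
            obtain ⟨k, hk⟩ := (h.inc_iff v (.out l')).mp h1
            exact ⟨k, by rw [hk]; rfl⟩
          · by_cases h15 : z' = 15
            · subst h15
              simp only [h0, if_false, if_true, Sum.inl.injEq] at h1
              obtain ⟨k, hk⟩ := (h.inc_iff v (.inn l')).mp h1
              exact ⟨k, by rw [hk]; rfl⟩
            · simp [h0, h15] at h1
        · rintro ⟨k, hk⟩
          rcases hi : S.inc v k with e | l'' | l''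
          · rw [hi] at hk
            simp [tr] at hk
          · rw [hi] at hk
            simp only [tr, Half.up.injEq, Sum.inr.injEq, Prod.mk.injEq] at hk
            obtain ⟨rfl, rfl⟩ := hk
            have := (h.inc_iff v (.out l'')).mpr ⟨k, hi⟩
            simp only [At] at this
            simp [this]
          · rw [hi] at hk
            simp only [tr, Half.up.injEq, Sum.inr.injEq, Prod.mk.injEq] at hk
            obtain ⟨rfl, rfl⟩ := hk
            have := (h.inc_iff v (.inn l'')).mpr ⟨k, hi⟩
            simp only [At] at this
            simp [this]
      · simp only [At, step, reduceCtorEq, false_iff, not_exists]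
        intro k hk
        rcases hi : S.inc v k with e | l'' | l'' <;> rw [hi] at hk <;> simp [tr] at hk
      · simp only [At, step, reduceCtorEq, false_iff, not_exists]
        intro k hk
        rcases hi : S.inc v k with e | l'' | l'' <;> rw [hi] at hk <;> simp [tr] at hk
    · rw [fin3]
      simp only [step, incG0, incG1, incG2]
      rcases h' with (e | ⟨l', z'⟩) | ⟨l', m⟩ | ⟨l', m⟩
      · simp only [At, Sum.map_inl, reduceCtorEq, ts, false_or, Half.up.injEq, or_self, false_iff]
        by_cases hz : lf z = true <;> simp [hz]
      · simp only [At, Sum.map_inr, id, ts, Sum.inr.injEq, Half.up.injEq]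
        by_cases h0 : z' = 0
        · subst h0
          simp only [if_true, reduceCtorEq, or_false]
          by_cases hz : lf z = true
          · simp [hz, eq_comm]
          · have hz' : lf z = false := by simpa using hz
            obtain ⟨h1, h2, h3, h4, h5, h6, h7⟩ := kid0 z hz'
            simp [hz', h1, h2, eq_comm]
            tauto
        · by_cases h15 : z' = 15
          · subst h15
            simp only [h0, if_false, if_true, reduceCtorEq, or_false]
            by_cases hz : lf z = true
            · simp [hz, eq_comm]
            · have hz' : lf z = false := by simpa using hz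
              obtain ⟨h1, h2, h3, h4, h5, h6, h7⟩ := kid0 z hz'
              simp [hz', h3, h4, eq_comm]
              tauto
          · simp only [h0, h15, if_false, Sum.inr.injEq, Prod.mk.injEq]
            have hk := kid z z' h0 h15
            rw [hk]
            by_cases hz : lf z = true
            · simp [hz, eq_comm]
            · have hz' : lf z = false := by simpa using hz
              simp only [hz', true_and, Bool.false_eq_true, if_false, Half.up.injEq, Sum.inr.injEq,
                Prod.mk.injEq]
              constructor
              · rintro (⟨rfl, rfl⟩ | ⟨rfl, rfl | rfl⟩) <;> simp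
              · rintro (⟨rfl, rfl⟩ | ⟨rfl, rfl⟩ | ⟨rfl, rfl⟩) <;> simp
      · simp only [At, Sum.inr.injEq, Prod.mk.injEq, reduceCtorEq, false_or]
        by_cases hz : lf z = true
        · simp only [hz, if_true, Half.out.injEq, Prod.mk.injEq, reduceCtorEq, or_false]
          constructor
          · rintro ⟨rfl, rfl⟩
            exact ⟨rfl, pos_path m⟩
          · rintro ⟨rfl, rfl⟩
            exact ⟨rfl, path_pos z hz⟩
        · have hz' : lf z = false := by simpa using hz
          simp only [hz', Bool.false_eq_true, if_false, reduceCtorEq, or_self, iff_false]
          rintro ⟨rfl, rfl⟩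
          rw [lf_path] at hz'
          exact Bool.noConfusion hz'
      · simp only [At, reduceCtorEq, false_or]
        by_cases hz : lf z = true
        · simp only [hz, if_true, Half.inn.injEq, reduceCtorEq, false_or]
          rw [Equiv.symm_apply_eq]
          constructor
          · intro h1
            simp only [Sum.inr.injEq, Prod.mk.injEq] at h1
            apply Prod.ext
            · exact h1.1.symm
            · simp only
              rw [← h1.2, pos_path]
          · intro h1
            rw [← h1]
            simp only
            rw [path_pos z hz]
        · have hz' : lf z = false := by simpa using hz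
          simp only [hz', Bool.false_eq_true, if_false, reduceCtorEq, or_self, iff_false]
          intro h1
          simp only [Sum.inr.injEq, Prod.mk.injEq] at h1
          rw [← h1.2, lf_path] at hz'
          exact Bool.noConfusion hz'

end Pool.Agent.N366.RS
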