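import Pool.Agent.N366.RS.Cut

set_option autoImplicit false

namespace Pool.Agent.N366.RS

variable {V E L : Type}

theorem dl_self (a : Bool) : dl a a = 0 := by simp [dl]
theorem dl_ne {a b : Bool} (h : a ≠ b) : dl a b = 1 := by simp [dl, h]
theorem dl_le (a b : Bool) : dl a b ≤ 1 := by revert a b; decide
theorem dl_tri (k x y : Bool) : dl x y ≤ dl k x + dl k y := by revert k x y; decide

/-- the identity of the edge of a half edge -/
def ide : Half E L → E ⊕ L
  | .up e => .inl e
  | .out l => .inr l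
  | .inn l => .inr l

def gc (S : Sys V E L) (a : V → Bool) : E ⊕ L → ℕ
  | .inl e => dl (a (S.s e)) (a (S.t e))
  | .inr l => dl (a (S.src l)) (a (S.src (S.σ l)))

theorem cost_gc [Fintype E] [Fintype L] (S : Sys V E L) (a : V → Bool) :
    cost S a = ∑ x, gc S a x := by
  rw [Fintype.sum_sum_type]
  rfl

theorem deg3 [Fintype E] [Fintype L] {S : Sys V E L} (hb : Base S) (a : V → Bool) (κ : Bool) (v : V)
    (h1 : ∀ u, a u ≠ κ → u = v) (h2 : a v ≠ κ) : 3 ≤ cost S a := by
  have hother : ∀ u, u ≠ v → a u = κ := fun u hu => by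
    by_contra h
    exact hu (h1 u h)
  have hval : ∀ k, gc S a (ide (S.inc v k)) = 1 := by
    intro k
    have hk := (hb.inc_iff v (S.inc v k)).mpr ⟨k, rfl⟩
    rcases hi : S.inc v k with e | l | l
    · rw [hi] at hk
      simp only [At] at hk
      simp only [ide, gc]
      rcases hk with hk | hk
      · rw [hk]
        have : S.t e ≠ v := fun h => hb.ne e (by rw [hk, h])
        rw [hother _ this]
        exact dl_ne h2
      · rw [hk]
        have : S.s e ≠ v := fun h => hb.ne e (by rw [hk, h])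
        rw [hother _ this]
        exact dl_ne h2.symm
    · rw [hi] at hk
      simp only [At] at hk
      simp only [ide, gc]
      rw [hk]
      have : S.src (S.σ l) ≠ v := fun h => hb.s1 l (hb.inj (by rw [h, hk]))
      rw [hother _ this]
      exact dl_ne h2
    · rw [hi] at hk
      simp only [At] at hk
      simp only [ide, gc]
      rw [hk]
      have : S.src l ≠ v := fun h => hb.s1 l (hb.inj (by rw [h, hk]))
      rw [hother _ this]
      exact dl_ne h2.symm
  have hinj : Function.Injective (fun k => ide (S.inc v k)) := by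
    intro k k' hkk
    apply hb.inc_inj v
    have hk := (hb.inc_iff v (S.inc v k)).mpr ⟨k, rfl⟩
    have hk' := (hb.inc_iff v (S.inc v k')).mpr ⟨k', rfl⟩
    simp only at hkk
    rcases hi : S.inc v k with e | l | l <;> rcases hi' : S.inc v k' with e' | l' | l' <;>
      rw [hi] at hk hkk <;> rw [hi'] at hk' hkk <;> simp only [ide, Sum.inl.injEq, Sum.inr.injEq,
        reduceCtorEq] at hkk
    · rw [hkk]
    · rw [hkk]
    · subst hkk
      simp only [At] at hk hk'
      exact absurd (hb.inj (by rw [hk', hk])) (hb.s1 l)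
    · subst hkk
      simp only [At] at hk hk'
      exact absurd (hb.inj (by rw [hk', hk])) (hb.s1 l)
    · rw [hkk]
  rw [cost_gc]
  have h3 : ∑ k : Fin 3, gc S a (ide (S.inc v k)) = 3 := by
    simp [hval]
  rw [← h3]
  have h4 := Finset.sum_map (Finset.univ : Finset (Fin 3)) ⟨fun k => ide (S.inc v k), hinj⟩ (gc S a)
  simp only [Function.Embedding.coeFn_mk] at h4
  rw [← h4]
  exact Finset.sum_le_sum_of_subset (Finset.subset_univ _)

theorem two_le_sum [Fintype L] (f : L → ℕ) {l m : L} (h : l ≠ m) : f l + f m ≤ ∑ x, f x := by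
  classical
  rw [← Finset.sum_pair h]
  exact Finset.sum_le_sum_of_subset (Finset.subset_univ _)

theorem lemA [Fintype E] [Fintype L] {S : Sys V E L} (hb : Base S) (hc : C4 S) (a : V → Bool)
    (k : L → Bool)
    (hW : (∑ e, dl (a (S.s e)) (a (S.t e))) +
      ∑ l, (dl (k l) (a (S.src l)) + dl (k l) (a (S.src (S.σ l))) + dl (k l) (k (S.σ l))) ≤ 3) :
    ∃ κ, (∀ l, k l = κ) ∧ (∀ u v, a u ≠ κ → a v ≠ κ → u = v) := by
  classical
  have hle : ∀ l, dl (a (S.src l)) (a (S.src (S.σ l))) ≤
      dl (k l) (a (S.src l)) + dl (k l) (a (S.src (S.σ l))) + dl (k l) (k (S.σ l)) := fun l =>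
    le_trans (dl_tri (k l) _ _) (Nat.le_add_right _ _)
  have hsum := Finset.sum_le_sum (fun l (_ : l ∈ Finset.univ) => hle l)
  have hcost : cost S a ≤ 3 := by
    unfold cost
    omega
  obtain ⟨κ, hκ⟩ := hc a hcost
  refine ⟨κ, ?_, hκ⟩
  by_cases hex : ∃ v, a v ≠ κ
  · obtain ⟨v, hv⟩ := hex
    have h3 := deg3 hb a κ v (fun u hu => hκ u v hu hv) hv
    have heq : ∀ l, dl (a (S.src l)) (a (S.src (S.σ l))) =
        dl (k l) (a (S.src l)) + dl (k l) (a (S.src (S.σ l))) + dl (k l) (k (S.σ l)) := by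
      have h4 : ∑ l, dl (a (S.src l)) (a (S.src (S.σ l))) =
          ∑ l, (dl (k l) (a (S.src l)) + dl (k l) (a (S.src (S.σ l))) + dl (k l) (k (S.σ l))) := by
        unfold cost at h3
        omega
      intro l
      exact (Finset.sum_eq_sum_iff_of_le (fun l _ => hle l)).mp h4 l (Finset.mem_univ l)
    have hstep : ∀ l, k l ≠ κ → k (S.σ l) ≠ κ ∧ (S.src l = v ∨ S.src (S.σ l) = v) := by
      intro l hl
      have h5 := heq l
      have h6 : ∀ x y k k' κ : Bool, dl x y = dl k x + dl k y + dl k k' → k ≠ κ →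
          k' ≠ κ ∧ (x ≠ κ ∨ y ≠ κ) := by decide
      obtain ⟨h7, h8⟩ := h6 _ _ _ _ κ h5 hl
      refine ⟨h7, ?_⟩
      rcases h8 with h8 | h8
      · exact Or.inl (hκ _ _ h8 hv)
      · exact Or.inr (hκ _ _ h8 hv)
    intro l
    by_contra hl
    obtain ⟨h1, h2⟩ := hstep l hl
    obtain ⟨h1', h2'⟩ := hstep _ h1
    obtain ⟨h1'', h2''⟩ := hstep _ h1'
    have e1 : S.src l ≠ S.src (S.σ l) := fun h => hb.s1 l (hb.inj h).symm
    have e2 : S.src (S.σ l) ≠ S.src (S.σ (S.σ l)) := fun h => hb.s1 _ (hb.inj h).symm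
    have e3 : S.src l ≠ S.src (S.σ (S.σ l)) := fun h => hb.s2 l (hb.inj h).symm
    have e4 : S.src (S.σ l) ≠ S.src (S.σ (S.σ (S.σ l))) := fun h => hb.s2 _ (hb.inj h).symm
    rcases h2 with h2 | h2
    · rcases h2' with h2' | h2'
      · exact e1 (by rw [h2, h2'])
      · exact e3 (by rw [h2, h2'])
    · rcases h2'' with h2'' | h2''
      · exact e2 (by rw [h2, h2''])
      · exact e4 (by rw [h2, h2''])
  · push Not at hex
    intro l
    by_contra hl
    simp only [hex] at hW
    have hT : ∀ l, k l ≠ κ → dl (k l) κ = 1 := fun l h => dl_ne h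
    by_cases h1 : k (S.σ l) = κ
    · have h2 : dl (k l) κ + dl (k l) κ + dl (k l) (k (S.σ l)) = 3 := by
        rw [h1, hT l hl]
      have h3 : S.σ (S.σ.symm l) = l := S.σ.apply_symm_apply l
      have h4 : 1 ≤ dl (k (S.σ.symm l)) κ + dl (k (S.σ.symm l)) κ +
          dl (k (S.σ.symm l)) (k (S.σ (S.σ.symm l))) := by
        rw [h3]
        by_cases h5 : k (S.σ.symm l) = κ
        · rw [h5, dl_ne (fun h => hl h.symm)]
          omega
        · rw [hT _ h5]
          omega
      have h5 : l ≠ S.σ.symm l := fun h => hb.s1 (S.σ.symm l) (by rw [h3]; exact h)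
      have h6 := two_le_sum (fun l => dl (k l) κ + dl (k l) κ + dl (k l) (k (S.σ l))) h5
      omega
    · have h5 : l ≠ S.σ l := fun h => hb.s1 l h.symm
      have h6 := two_le_sum (fun l => dl (k l) κ + dl (k l) κ + dl (k l) (k (S.σ l))) h5
      rw [hT l hl, hT _ h1] at h6
      omega

theorem cost_step [Fintype E] [Fintype L] (S : Sys V E L) (b : V ⊕ (L × Fin 30) → Bool) :
    cost (step S) b = (∑ e, dl (b (.inl (S.s e))) (b (.inl (S.t e)))) +
      ∑ l, (costM (fun z => b (.inr (l, z))) + dl (b (.inr (l, 0))) (b (.inl (S.src l))) +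
        dl (b (.inr (l, 15))) (b (.inl (S.src (S.σ l)))) +
        dl (b (.inr (l, 10))) (b (.inr (S.σ l, 22)))) := by
  have h1 : ∀ l, costM (fun z => b (.inr (l, z))) + dl (b (.inr (l, 0))) (b (.inl (S.src l))) +
        dl (b (.inr (l, 15))) (b (.inl (S.src (S.σ l)))) +
        dl (b (.inr (l, 10))) (b (.inr (S.σ l, 22))) =
      TT (fun z => b (.inr (l, z))) (b (.inl (S.src l))) (b (.inl (S.src (S.σ l))))
        (b (.inr (S.σ l, 22))) := fun l => (TT_eq _ _ _ _).symm
  simp only [h1, TT]
  rw [Finset.sum_add_distrib, ← add_assoc]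
  unfold cost
  rw [Fintype.sum_sum_type, Fintype.sum_prod_type, Fintype.sum_prod_type]
  congr 1

theorem c4_step [Fintype E] [Fintype L] {S : Sys V E L} (hb : Base S) (hc : C4 S) :
    C4 (step S) := by
  classical
  intro b hcost
  rw [cost_step] at hcost
  set a : V → Bool := fun v => b (.inl v) with ha
  set c : L → Fin 30 → Bool := fun l z => b (.inr (l, z)) with hcdef
  have hcost' : (∑ e, dl (a (S.s e)) (a (S.t e))) +
      ∑ l, (costM (c l) + dl (c l 0) (a (S.src l)) + dl (c l 15) (a (S.src (S.σ l))) +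
        dl (c l 10) (c (S.σ l) 22)) ≤ 3 := hcost
  clear hcost
  have hconst : ∀ l, costM (c l) ≤ 1 → ∀ z, c l z = c l 0 := fun l h => G1 (c l) h
  by_cases hall : ∀ l, costM (c l) ≤ 1
  · obtain ⟨κ, h1, h2⟩ := lemA hb hc a (fun l => c l 0) (by
      refine le_trans (Nat.add_le_add_left (Finset.sum_le_sum fun l _ => ?_) _) hcost'
      rw [hconst l (hall l) 15, hconst l (hall l) 10, hconst (S.σ l) (hall (S.σ l)) 22]
      omega)
    refine ⟨κ, ?_⟩
    have h3 : ∀ l z, b (.inr (l, z)) = κ := fun l z => by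
      have := hconst l (hall l) z
      rw [h1 l] at this
      exact this
    rintro (u | ⟨l, z⟩) (v | ⟨l', z'⟩) hu hv
    · rw [h2 u v hu hv]
    · exact absurd (h3 l' z') hv
    · exact absurd (h3 l z) hu
    · exact absurd (h3 l z) hu
  · push Not at hall
    obtain ⟨l0, hl0⟩ := hall
    have hrest : ∀ l, l ≠ l0 → costM (c l) ≤ 1 := by
      intro l hl
      by_contra h
      have h6 := two_le_sum (fun l => (costM (c l) + dl (c l 0) (a (S.src l)) +
        dl (c l 15) (a (S.src (S.σ l))) + dl (c l 10) (c (S.σ l) 22))) hl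
      omega
    set l1 := S.σ.symm l0 with hl1
    have hs1 : S.σ l1 = l0 := S.σ.apply_symm_apply l0
    have hl10 : l1 ≠ l0 := fun h => hb.s1 l1 (by rw [hs1, h])
    have hσ0 : S.σ l0 ≠ l0 := hb.s1 l0
    obtain ⟨κs, hκs⟩ : ∃ κ, dl κ (a (S.src l0)) + dl κ (a (S.src (S.σ l0))) + dl κ (c l1 0) +
        dl κ (c (S.σ l0) 0) ≤ 2 := by
      have : ∀ x y z w : Bool, ∃ κ, dl κ x + dl κ y + dl κ z + dl κ w ≤ 2 := by decide
      exact this _ _ _ _
    obtain ⟨κ, h1, h2⟩ := lemA hb hc a (fun l => if l = l0 then κs else c l 0) (by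
      refine le_trans (Nat.add_le_add_left ?_ _) hcost'
      have hpair : ∀ f : L → ℕ, ∑ l, f l = f l0 + f l1 + ∑ l ∈ (Finset.univ.erase l0).erase l1, f l := by
        intro f
        rw [← Finset.add_sum_erase _ _ (Finset.mem_univ l0),
          ← Finset.add_sum_erase _ _ (Finset.mem_erase.mpr ⟨hl10, Finset.mem_univ l1⟩), add_assoc]
      rw [hpair, hpair (fun l => (costM (c l) + dl (c l 0) (a (S.src l)) +
        dl (c l 15) (a (S.src (S.σ l))) + dl (c l 10) (c (S.σ l) 22)))]
      apply Nat.add_le_add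
      · simp only [if_true, hs1, if_neg hl10, if_neg hσ0]
        rw [hconst l1 (hrest l1 hl10) 15, hconst l1 (hrest l1 hl10) 10]
        have e1 := dl_comm (c l1 0) κs
        omega
      · apply Finset.sum_le_sum
        intro l hl
        rw [Finset.mem_erase, Finset.mem_erase] at hl
        have e1 : S.σ l ≠ l0 := fun h => hl.1 (by rw [hl1, ← h, Equiv.symm_apply_apply])
        simp only [if_neg hl.2.1, if_neg e1]
        rw [hconst l (hrest l hl.2.1) 15, hconst l (hrest l hl.2.1) 10,
          hconst (S.σ l) (hrest _ e1) 22]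
        omega)
    have hk : ∀ l, l ≠ l0 → ∀ z, c l z = κ := fun l hl z => by
      rw [hconst l (hrest l hl) z]
      have := h1 l
      simpa only [if_neg hl] using this
    by_cases hex : ∃ v, a v ≠ κ
    · exfalso
      obtain ⟨v, hv⟩ := hex
      have h3 := deg3 hb a κ v (fun u hu => h2 u v hu hv) hv
      unfold cost at h3
      have h4 : ∑ l, dl (a (S.src l)) (a (S.src (S.σ l))) + 1 ≤
          ∑ l, (costM (c l) + dl (c l 0) (a (S.src l)) + dl (c l 15) (a (S.src (S.σ l))) +
        dl (c l 10) (c (S.σ l) 22)) := by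
        rw [← Finset.add_sum_erase _ _ (Finset.mem_univ l0),
          ← Finset.add_sum_erase (a := l0) (Finset.univ) (fun l => (costM (c l) +
            dl (c l 0) (a (S.src l)) + dl (c l 15) (a (S.src (S.σ l))) +
            dl (c l 10) (c (S.σ l) 22))) (Finset.mem_univ l0)]
        have h5 : ∑ l ∈ Finset.univ.erase l0, dl (a (S.src l)) (a (S.src (S.σ l))) ≤
            ∑ l ∈ Finset.univ.erase l0, (costM (c l) +
            dl (c l 0) (a (S.src l)) + dl (c l 15) (a (S.src (S.σ l))) +
            dl (c l 10) (c (S.σ l) 22)) := by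
          apply Finset.sum_le_sum
          intro l hl
          rw [Finset.mem_erase] at hl
          rw [hk l hl.1 0, hk l hl.1 15]
          have := dl_tri κ (a (S.src l)) (a (S.src (S.σ l)))
          omega
        have h6 := dl_le (a (S.src l0)) (a (S.src (S.σ l0)))
        omega
      omega
    · push Not at hex
      refine ⟨κ, ?_⟩
      have h6 := two_le_sum (fun l => (costM (c l) + dl (c l 0) (a (S.src l)) +
        dl (c l 15) (a (S.src (S.σ l))) + dl (c l 10) (c (S.σ l) 22))) hl10.symm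
      simp only [hs1] at h6
      rw [hk l1 hl10 10, hk (S.σ l0) hσ0 22, hex, hex] at h6
      have h7 := G2 (c l0) κ (by
        rw [dl_comm (c l0 22) κ]
        omega)
      rintro (u | ⟨l, z⟩) (v | ⟨l', z'⟩) hu hv
      · exact absurd (hex u) hu
      · exact absurd (hex u) hu
      · exact absurd (hex v) hv
      · have e1 : l = l0 := by
          by_contra h
          exact hu (hk l h z)
        have e2 : l' = l0 := by
          by_contra h
          exact hv (hk l' h z')
        subst e1
        subst e2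
        rw [h7 z z' hu hv]

end Pool.Agent.N366.RS
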