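import Pool.Agent.N366.RS.BaseStep

set_option autoImplicit false

namespace Pool.Agent.N366.RS

variable {V E L : Type}

inductive T
  | lf : ℕ → T
  | nd : T → T → T
  deriving DecidableEq

def T.ev (ys : List F) : T → F
  | .lf m => ys.getD m z0
  | .nd a b => xr (a.ev ys) (b.ev ys)

def T.evf (y : ℕ → F) : T → F
  | .lf m => y m
  | .nd a b => xr (a.evf y) (b.evf y)

def T.bd (n : ℕ) : T → Bool
  | .lf m => decide (m < n)
  | .nd a b => a.bd n && b.bd n

def PT : T := .nd (.nd (.nd (.lf 12) (.lf 1)) (.nd (.lf 2) (.lf 15)))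
  (.nd (.nd (.lf 11) (.lf 3)) (.nd (.lf 4) (.lf 10)))

def ST : T := .nd (.nd (.nd (.lf 0) (.lf 14)) (.nd (.lf 13) (.lf 7)))
  (.nd (.nd (.lf 5) (.lf 8)) (.nd (.lf 9) (.lf 6)))

def steps : List (List T) := [[],
 [],
 [],
 [],
 [],
 [],
 [],
 [],
 [.nd (.lf 5) (.lf 8)],
 [.nd (.lf 9) (.lf 6), .nd (.nd (.lf 5) (.lf 8)) (.nd (.lf 9) (.lf 6))],
 [.nd (.lf 4) (.lf 10)],
 [.nd (.lf 11) (.lf 3), .nd (.nd (.lf 11) (.lf 3)) (.nd (.lf 4) (.lf 10))],
 [.nd (.lf 12) (.lf 1)],
 [.nd (.lf 13) (.lf 7)],
 [.nd (.lf 0) (.lf 14), .nd (.nd (.lf 0) (.lf 14)) (.nd (.lf 13) (.lf 7)), ST],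
 [.nd (.lf 2) (.lf 15), .nd (.nd (.lf 12) (.lf 1)) (.nd (.lf 2) (.lf 15)), PT]]

def f1 : F := (false, true)
def f2 : F := (true, false)
def f3 : F := (true, true)

def eqz (a : F) : Bool := !(a.1 || a.2)
def eqF (a b : F) : Bool := eqz (xr a b)

theorem eqz_iff (a : F) : eqz a = true ↔ a = z0 := by
  revert a; decide
theorem eqF_iff (a b : F) : eqF a b = true ↔ a = b := by
  revert a b; decide

def run : List (List T) → F → F → List F → Bool
  | [], x0, cur, ys => (!(eqz (xr (PT.ev ys) x0))) && eqF (xr (PT.ev ys) (ST.ev ys)) (xr x0 cur)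
  | ck :: rest, x0, cur, ys => [f1, f2, f3].all fun x =>
      (eqz (xr cur x)) || (ck.any fun t => eqz (t.ev (ys ++ [xr cur x]))) ||
        run rest x0 x (ys ++ [xr cur x])

theorem run_ok : run steps f1 f1 [] && run steps f2 f2 [] && run steps f3 f3 [] = true := by
  decide +kernel

def Y (xs : ℕ → F) (n : ℕ) : List F := (List.range n).map fun m => xr (xs m) (xs (m + 1))

theorem Y_getD (xs : ℕ → F) (n m : ℕ) (h : m < n) :
    (Y xs n).getD m z0 = xr (xs m) (xs (m + 1)) := by
  simp [Y, List.getD, h]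

theorem ev_eq (xs : ℕ → F) (n : ℕ) (t : T) (h : t.bd n = true) :
    t.ev (Y xs n) = t.evf (fun m => xr (xs m) (xs (m + 1))) := by
  induction t with
  | lf m =>
    simp only [T.bd, decide_eq_true_eq] at h
    simp only [T.ev, T.evf, Y_getD xs n m h]
  | nd a b iha ihb =>
    simp only [T.bd, Bool.and_eq_true] at h
    simp only [T.ev, T.evf, iha h.1, ihb h.2]

theorem mem_f {x : F} (h : x ≠ z0) : x ∈ [f1, f2, f3] := by
  revert x; decide

theorem run_sound (xs : ℕ → F) (x0 : F) : ∀ (l : List (List T)) (m : ℕ),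
    (∀ k, m ≤ k → k ≤ m + l.length → xs k ≠ z0) →
    (∀ k, m ≤ k → k < m + l.length → xr (xs k) (xs (k + 1)) ≠ z0) →
    (∀ k, (hk : k < l.length) → ∀ t ∈ l[k], t.ev (Y xs (m + k + 1)) ≠ z0) →
    run l x0 (xs m) (Y xs m) = true →
    xr (PT.ev (Y xs (m + l.length))) x0 ≠ z0 ∧
    xr (PT.ev (Y xs (m + l.length))) (ST.ev (Y xs (m + l.length))) = xr x0 (xs (m + l.length)) := by
  intro l
  induction l with
  | nil =>
    intro m _ _ _ h
    simp only [run, Bool.and_eq_true, Bool.not_eq_true', eqF_iff] at h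
    simp only [List.length_nil, add_zero]
    refine ⟨fun h1 => ?_, h.2⟩
    rw [h1] at h
    exact absurd h.1 (by decide)
  | cons ck rest ih =>
    intro m h1 h2 h3 h
    simp only [run] at h
    rw [List.all_eq_true] at h
    have hx := h (xs (m + 1)) (mem_f (h1 (m + 1) (by omega) (by simp)))
    simp only [Bool.or_eq_true] at hx
    have hY : Y xs m ++ [xr (xs m) (xs (m + 1))] = Y xs (m + 1) := by
      simp [Y, List.range_succ]
    rw [hY] at hx
    rcases hx with (hx | hx) | hx
    · rw [eqz_iff] at hx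
      exact absurd hx (h2 m le_rfl (by simp))
    · rw [List.any_eq_true] at hx
      obtain ⟨t, ht, ht2⟩ := hx
      rw [eqz_iff] at ht2
      have := h3 0 (by simp) t (by simpa using ht)
      rw [add_zero] at this
      exact absurd ht2 this
    · have := ih (m + 1) (fun k hk hk2 => h1 k (by omega) (by simp; omega))
        (fun k hk hk2 => h2 k (by omega) (by simp; omega))
        (fun k hk t ht => by
          have := h3 (k + 1) (by simp; omega) t (by simpa using ht)
          rw [show m + 1 + k + 1 = m + (k + 1) + 1 from by omega]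
          exact this) hx
      rw [show m + (ck :: rest).length = m + 1 + rest.length from by simp; omega]
      exact this

def tz : ℕ → Fin 30 → T
  | 0, z => .lf (pos z)
  | n + 1, z => if lf z then .lf (pos z) else .nd (tz n (c1 z)) (tz n (c2 z))

def hb : ℕ → Fin 30 → Bool
  | 0, z => lf z
  | n + 1, z => lf z || (hb n (c1 z) && hb n (c2 z))

theorem tz_eq (g : Fin 30 → F) (y : ℕ → F) (hl : ∀ z, lf z = true → g z = y (pos z))
    (hi : ∀ z, lf z = false → g z = xr (g (c1 z)) (g (c2 z))) :
    ∀ n z, hb n z = true → (tz n z).evf y = g z := by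
  intro n
  induction n with
  | zero =>
    intro z hz
    simp only [tz, T.evf]
    exact (hl z hz).symm
  | succ n ih =>
    intro z hz
    by_cases h : lf z = true
    · simp only [tz, h, if_true, T.evf]
      exact (hl z h).symm
    · have h' : lf z = false := by simpa using h
      simp only [hb, h', Bool.false_or, Bool.and_eq_true] at hz
      simp only [tz, h', Bool.false_eq_true, if_false, T.evf]
      rw [ih _ hz.1, ih _ hz.2, hi z h']

theorem hb3 : ∀ z, hb 3 z = true := by decide +kernel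

theorem steps_ok : ∀ k, (hk : k < steps.length) → ∀ t ∈ steps[k],
    t.bd (k + 1) = true ∧ ∃ z, t = tz 3 z := by
  decide +kernel

theorem PT_eq : PT = tz 3 0 := by decide +kernel
theorem ST_eq : ST = tz 3 15 := by decide +kernel

theorem gad (g : Fin 30 → F) (xs : ℕ → F) (hx : ∀ m ≤ 16, xs m ≠ z0) (hg : ∀ z, g z ≠ z0)
    (hl : ∀ z, lf z = true → g z = xr (xs (pos z)) (xs (pos z + 1)))
    (hi : ∀ z, lf z = false → g z = xr (g (c1 z)) (g (c2 z))) :
    xr (g 0) (xs 0) ≠ z0 ∧ xr (g 0) (g 15) = xr (xs 0) (xs 16) := by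
  have hy : ∀ z, (tz 3 z).evf (fun m => xr (xs m) (xs (m + 1))) = g z := fun z =>
    tz_eq g _ hl hi 3 z (hb3 z)
  have hlen : steps.length = 16 := rfl
  have hrun : run steps (xs 0) (xs 0) (Y xs 0) = true := by
    have h := run_ok
    simp only [Bool.and_eq_true] at h
    have h0 := mem_f (hx 0 (by omega))
    have hY : Y xs 0 = [] := rfl
    rw [hY]
    simp only [List.mem_cons, List.not_mem_nil, or_false] at h0
    rcases h0 with h0 | h0 | h0 <;> rw [h0]
    · exact h.1.1
    · exact h.1.2
    · exact h.2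
  have := run_sound xs (xs 0) steps 0
    (fun k _ hk => hx k (by rw [hlen] at hk; omega))
    (fun k _ hk => by
      have hk' : k < 16 := by rw [hlen] at hk; omega
      have := hl (path ⟨k, hk'⟩) (lf_path _)
      rw [pos_path] at this
      simp only at this
      rw [← this]
      exact hg _)
    (fun k hk t ht => by
      obtain ⟨hb, z, hz⟩ := steps_ok k hk t ht
      rw [zero_add, ev_eq xs (k + 1) t hb, hz, hy]
      exact hg _) hrun
  rw [hlen, zero_add, ev_eq xs 16 PT (by decide), ev_eq xs 16 ST (by decide), PT_eq, ST_eq,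
    hy, hy] at this
  exact this

theorem xr_iff : ∀ a b c : F, xr (xr a b) c = z0 → a = xr b c := by decide
theorem xr_leaf : ∀ y p t s : F, xr (xr y p) s = z0 →
    xr (xr y (xr p t)) (xr s t) = z0 := by decide
theorem xr_perm1 : ∀ y p t s : F, xr (xr y p) s = z0 →
    xr (xr y (xr s t)) (xr p t) = z0 := by decide

theorem unc_step {S : Sys V E L} (hb : Base S) (h : Unc S) : Unc (step S) := by
  intro f' x' hc
  -- the gadget
  have key : ∀ l, xr (f' (.inr (l, 0))) (x' (S.σ.symm l, 15)) ≠ z0 ∧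
      xr (f' (.inr (l, 0))) (f' (.inr (l, 15))) = xr (x' (S.σ.symm l, 15)) (x' (l, 15)) := by
    intro l
    have hsum := fun z => hc.sum (.inr (l, z))
    simp only [step, incG0, incG1, incG2, cv] at hsum
    let xs : ℕ → F := fun m => if m = 0 then x' (S.σ.symm l, 15) else
      if hm : m - 1 < 16 then x' (l, ⟨m - 1, hm⟩) else z0
    have hxs : ∀ m : Fin 16, xs m = x' ((σs S.σ).symm (l, m)) := by
      intro m
      by_cases h0 : m = 0
      · subst h0
        rw [σs_symm0]
        rfl
      · rw [σs_symm _ _ _ h0]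
        have h1 : m.val ≠ 0 := fun h2 => h0 (Fin.ext h2)
        have h2 : m.val - 1 < 16 := by omega
        have h3 : (⟨m.val - 1, h2⟩ : Fin 16) = m - 1 := by
          have : ∀ m : Fin 16, m ≠ 0 → ∀ h2 : m.val - 1 < 16, (⟨m.val - 1, h2⟩ : Fin 16) = m - 1 := by
            decide
          exact this m h0 h2
        simp only [xs, h1, if_false, h2, dif_pos, h3]
    have hxs' : ∀ m : Fin 16, xs (m.val + 1) = x' (l, m) := by
      intro m
      have h2 : m.val + 1 - 1 < 16 := by omega
      simp only [xs, Nat.succ_ne_zero, if_false, h2, dif_pos]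
      congr 2
    have := gad (fun z => f' (.inr (l, z))) xs ?_ (fun z => hc.f0 _) ?_ ?_
    · exact this
    · intro m hm
      by_cases h0 : m = 0
      · subst h0
        exact hc.x0 _
      · have h2 : m - 1 < 16 := by omega
        simp only [xs, h0, if_false, h2, dif_pos]
        exact hc.x0 _
    · intro z hz
      have h1 := hsum z
      simp only [hz, if_true, cv] at h1
      have h2 := xr_iff _ _ _ h1
      rw [h2, hxs, hxs']
      exact (by decide : ∀ a b : F, xr a b = xr b a) _ _
    · intro z hz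
      have h1 := hsum z
      simp only [hz, Bool.false_eq_true, if_false, cv] at h1
      exact xr_iff _ _ _ h1
  refine h (fun e => f' (.inl e)) (fun l => xr (f' (.inr (l, 0))) (x' (S.σ.symm l, 15)))
    ⟨fun e => hc.f0 _, fun l => (key l).1, fun v => ?_⟩
  have hv := hc.sum (.inl v)
  simp only [step] at hv
  -- values on the half edges
  have hval : ∀ hh : Half E L, cv f' x' (tr hh) =
      match hh with
      | .up e => f' (.inl e)
      | .out l => f' (.inr (l, 0))
      | .inn l => f' (.inr (l, 15)) := by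
    intro hh
    cases hh <;> rfl
  rcases hb.shape v with hup | ⟨e, l, hl, h0, h1, h2⟩
  · obtain ⟨e0, h0⟩ := hup 0
    obtain ⟨e1, h1⟩ := hup 1
    obtain ⟨e2, h2⟩ := hup 2
    rw [h0, h1, h2] at hv ⊢
    exact hv
  · rw [h0, h1, h2] at hv ⊢
    simp only [hval] at hv
    simp only [cv]
    have k2 := (key (S.σ.symm l)).2
    have k3 : xr (f' (.inr (S.σ.symm l, 0))) (x' (S.σ.symm (S.σ.symm l), 15)) =
        xr (f' (.inr (S.σ.symm l, 15))) (x' (S.σ.symm l, 15)) :=
      (by decide : ∀ a b c d : F, xr a b = xr c d → xr a c = xr b d) _ _ _ _ k2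
    rw [k3]
    exact xr_leaf _ _ _ _ hv

end Pool.Agent.N366.RS
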