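import Pool.Agent.N366.RS.GirStep
import Pool.Agent.N366.RS.UncStep
import Pool.Agent.N366.RS.C4Step
import Pool.Agent.N366.RS.Stm

set_option autoImplicit false

namespace Pool.Agent.N366.RS

variable {V E L : Type}

/-- the labelling of a system by the tree `T_i` -/
structure Lab (S : Sys V E L) (i : ℕ) (N : V → ℕ × ℕ) (τ : Equiv.Perm L) : Prop where
  hi : 2 ≤ i
  inj : Function.Injective N
  rng : ∀ v, (N v).1 ≤ i ∧ (N v).2 < width (N v).1
  surj : ∀ p : ℕ × ℕ, p.1 ≤ i → p.2 < width p.1 → ∃ v, N v = p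
  s_inj : Function.Injective S.s
  chd : ∀ e, IsChild (N (S.t e)) (N (S.s e))
  par : ∀ v, (N v).1 ≠ 0 → ∃ e, S.s e = v
  leaf : ∀ l, (N (S.src l)).1 = i
  leaf' : ∀ v, (N v).1 = i → ∃ l, S.src l = v
  comm : ∀ l, S.σ (τ l) = τ (S.σ l)
  rot : ∀ l, (N (S.src (τ l))).2 = ((N (S.src l)).2 + width i / 3) % width i

/-- the graph of a system -/
def GG (S : Sys V E L) (hb : Base S) : SimpleGraph V where
  Adj := Ad S
  symm := ⟨fun _ _ => ad_symm⟩
  loopless := ⟨ad_irrefl hb⟩

/-- the other end -/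
noncomputable def oth (S : Sys V E L) (v : V) : Half E L → V := by
  classical exact fun h => match h with
  | .up e => if S.s e = v then S.t e else S.s e
  | .out l => S.src (S.σ l)
  | .inn l => S.src l

theorem oth_adj {S : Sys V E L} (hb : Base S) (v w : V) :
    Ad S v w ↔ ∃ k, oth S v (S.inc v k) = w := by
  classical
  constructor
  · rintro (⟨e, h | h⟩ | ⟨l, h | h⟩)
    · obtain ⟨k, hk⟩ := (hb.inc_iff v (.up e)).mp (Or.inl h.1)
      refine ⟨k, ?_⟩
      rw [hk]
      simp only [oth, h.1, if_true, h.2]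
    · obtain ⟨k, hk⟩ := (hb.inc_iff v (.up e)).mp (Or.inr h.2)
      refine ⟨k, ?_⟩
      have : S.s e ≠ v := fun h1 => hb.ne e (by rw [h1, h.2])
      rw [hk]
      simp only [oth]
      rw [if_neg this]
      exact h.1
    · obtain ⟨k, hk⟩ := (hb.inc_iff v (.out l)).mp h.1
      refine ⟨k, ?_⟩
      rw [hk]
      exact h.2
    · obtain ⟨k, hk⟩ := (hb.inc_iff v (.inn l)).mp h.2
      refine ⟨k, ?_⟩
      rw [hk]
      exact h.1
  · rintro ⟨k, hk⟩
    have hA := (hb.inc_iff v (S.inc v k)).mpr ⟨k, rfl⟩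
    rcases hi : S.inc v k with e | l | l <;> rw [hi] at hA hk
    · simp only [oth] at hk
      left
      rcases hA with hA | hA
      · rw [if_pos hA] at hk
        exact ⟨e, Or.inl ⟨hA, hk⟩⟩
      · have : S.s e ≠ v := fun h1 => hb.ne e (by rw [h1, hA])
        rw [if_neg this] at hk
        exact ⟨e, Or.inr ⟨hk, hA⟩⟩
    · exact Or.inr ⟨l, Or.inl ⟨hA, hk⟩⟩
    · exact Or.inr ⟨l, Or.inr ⟨hk, hA⟩⟩

theorem dep {S : Sys V E L} {i : ℕ} {N : V → ℕ × ℕ} {τ : Equiv.Perm L} (hl : Lab S i N τ) (e : E) :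
    (N (S.s e)).1 = (N (S.t e)).1 + 1 := (hl.chd e).1

/-- distinct edges have distinct pairs of ends -/
theorem no_par {S : Sys V E L} (hb : Base S) {i : ℕ} {N : V → ℕ × ℕ} {τ : Equiv.Perm L}
    (hl : Lab S i N τ) (x y : E ⊕ L) (v w : V)
    (hx : match x with
      | .inl e => (S.s e = v ∧ S.t e = w) ∨ (S.s e = w ∧ S.t e = v)
      | .inr l => (S.src l = v ∧ S.src (S.σ l) = w) ∨ (S.src l = w ∧ S.src (S.σ l) = v))
    (hy : match y with
      | .inl e => (S.s e = v ∧ S.t e = w) ∨ (S.s e = w ∧ S.t e = v)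
      | .inr l => (S.src l = v ∧ S.src (S.σ l) = w) ∨ (S.src l = w ∧ S.src (S.σ l) = v)) :
    x = y := by
  rcases x with e | l <;> rcases y with e' | l' <;> simp only at hx hy
  · have h1 := dep hl e
    have h2 := dep hl e'
    rcases hx with hx | hx <;> rcases hy with hy | hy
    · rw [hl.s_inj (hx.1.trans hy.1.symm)]
    · rw [hx.1, hx.2] at h1
      rw [hy.1, hy.2] at h2
      omega
    · rw [hx.1, hx.2] at h1
      rw [hy.1, hy.2] at h2
      omega
    · rw [hl.s_inj (hx.1.trans hy.1.symm)]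
  · have h1 := dep hl e
    have h2 := hl.leaf l'
    have h3 := hl.leaf (S.σ l')
    rcases hx with hx | hx <;> rcases hy with hy | hy <;> rw [hx.1, hx.2] at h1 <;>
      rw [hy.1] at h2 <;> rw [hy.2] at h3 <;> omega
  · have h1 := dep hl e'
    have h2 := hl.leaf l
    have h3 := hl.leaf (S.σ l)
    rcases hx with hx | hx <;> rcases hy with hy | hy <;> rw [hy.1, hy.2] at h1 <;>
      rw [hx.1] at h2 <;> rw [hx.2] at h3 <;> omega
  · rcases hx with hx | hx <;> rcases hy with hy | hy
    · rw [hb.inj (hx.1.trans hy.1.symm)]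
    · have h1 := hb.inj (hx.1.trans hy.2.symm)
      have h2 := hb.inj (hx.2.trans hy.1.symm)
      rw [h1] at h2
      exact absurd h2 (hb.s2 l')
    · have h1 := hb.inj (hx.1.trans hy.2.symm)
      have h2 := hb.inj (hx.2.trans hy.1.symm)
      rw [h1] at h2
      exact absurd h2 (hb.s2 l')
    · rw [hb.inj (hx.1.trans hy.1.symm)]

theorem oth_ide {S : Sys V E L} (hb : Base S) (v : V) (h : Half E L) (hA : At S v h) :
    match ide h with
      | .inl e => (S.s e = v ∧ S.t e = oth S v h) ∨ (S.s e = oth S v h ∧ S.t e = v)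
      | .inr l => (S.src l = v ∧ S.src (S.σ l) = oth S v h) ∨
        (S.src l = oth S v h ∧ S.src (S.σ l) = v) := by
  classical
  rcases h with e | l | l
  · simp only [ide, oth]
    rcases hA with hA | hA
    · left
      simp [hA]
    · right
      have : S.s e ≠ v := fun h1 => hb.ne e (by rw [h1, hA])
      simp [this, hA]
  · exact Or.inl ⟨hA, rfl⟩
  · exact Or.inr ⟨rfl, hA⟩

theorem ide_inj {S : Sys V E L} (hb : Base S) (v : V) :
    Function.Injective (fun k => ide (S.inc v k)) := by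
  intro k k' hkk
  apply hb.inc_inj v
  have hk := (hb.inc_iff v (S.inc v k)).mpr ⟨k, rfl⟩
  have hk' := (hb.inc_iff v (S.inc v k')).mpr ⟨k', rfl⟩
  simp only at hkk
  rcases hi : S.inc v k with e | l | l <;> rcases hi' : S.inc v k' with e' | l' | l' <;>
    rw [hi] at hk hkk <;> rw [hi'] at hk' hkk <;> simp only [ide, Sum.inl.injEq, Sum.inr.injEq,
      reduceCtorEq] at hkk
  · rw [hkk]
  · rw [hkk]
  · subst hkk
    simp only [At] at hk hk'
    exact absurd (hb.inj (by rw [hk', hk])) (hb.s1 l)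
  · subst hkk
    simp only [At] at hk hk'
    exact absurd (hb.inj (by rw [hk', hk])) (hb.s1 l)
  · rw [hkk]

theorem oth_inj {S : Sys V E L} (hb : Base S) {i : ℕ} {N : V → ℕ × ℕ} {τ : Equiv.Perm L}
    (hl : Lab S i N τ) (v : V) : Function.Injective (fun k => oth S v (S.inc v k)) := by
  intro k k' h
  simp only at h
  apply ide_inj hb v
  simp only
  apply no_par hb hl _ _ v (oth S v (S.inc v k))
  · exact oth_ide hb v _ ((hb.inc_iff v _).mpr ⟨k, rfl⟩)
  · rw [h]
    exact oth_ide hb v _ ((hb.inc_iff v _).mpr ⟨k', rfl⟩)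

theorem cubic {S : Sys V E L} (hb : Base S) {i : ℕ} {N : V → ℕ × ℕ} {τ : Equiv.Perm L}
    (hl : Lab S i N τ) (v : V) : ((GG S hb).neighborSet v).ncard = 3 := by
  have : (GG S hb).neighborSet v = Set.range (fun k => oth S v (S.inc v k)) := by
    ext w
    exact oth_adj hb v w
  rw [this, ← Set.image_univ, Set.ncard_image_of_injective _ (oth_inj hb hl v), Set.ncard_univ,
    Nat.card_eq_fintype_card, Fintype.card_fin]

/-- colours as pairs -/
def em (c : Fin 3) : F := if c = 0 then f1 else if c = 1 then f2 else f3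

theorem em_ne : ∀ c, em c ≠ z0 := by decide
theorem em_sum : ∀ a b c : Fin 3, a ≠ b → a ≠ c → b ≠ c → xr (xr (em a) (em b)) (em c) = z0 := by
  decide

theorem unc_official {S : Sys V E L} (hb : Base S) {i : ℕ} {N : V → ℕ × ℕ} {τ : Equiv.Perm L}
    (hl : Lab S i N τ) (hu : Unc S) :
    ¬ ∃ f : Sym2 V → Fin 3, ∀ u v w : V, (GG S hb).Adj u v → (GG S hb).Adj u w → v ≠ w →
      f s(u, v) ≠ f s(u, w) := by
  rintro ⟨f, hf⟩
  have hcv : ∀ v k, cv (fun e => em (f s(S.s e, S.t e)))
      (fun l => em (f s(S.src l, S.src (S.σ l)))) (S.inc v k) =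
      em (f s(v, oth S v (S.inc v k))) := by
    intro v k
    have hA := (hb.inc_iff v _).mpr ⟨k, rfl⟩
    have h1 := oth_ide hb v _ hA
    rcases hi : S.inc v k with e | l | l <;> rw [hi] at h1 <;> simp only [cv] <;>
      simp only [ide] at h1
    · rcases h1 with h1 | h1
      · rw [h1.1, h1.2]
      · rw [h1.1, h1.2, Sym2.eq_swap]
    · rcases h1 with h1 | h1
      · rw [h1.1, h1.2]
      · rw [h1.1, h1.2, Sym2.eq_swap]
    · rcases h1 with h1 | h1
      · rw [h1.1, h1.2]
      · rw [h1.1, h1.2, Sym2.eq_swap]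
  refine hu (fun e => em (f s(S.s e, S.t e))) (fun l => em (f s(S.src l, S.src (S.σ l))))
    ⟨fun e => em_ne _, fun l => em_ne _, fun v => ?_⟩
  rw [hcv, hcv, hcv]
  have hadj : ∀ k, (GG S hb).Adj v (oth S v (S.inc v k)) := fun k => (oth_adj hb v _).mpr ⟨k, rfl⟩
  have hne : ∀ k k', k ≠ k' → oth S v (S.inc v k) ≠ oth S v (S.inc v k') := fun k k' h h' =>
    h (oth_inj hb hl v h')
  exact em_sum _ _ _ (hf _ _ _ (hadj 0) (hadj 1) (hne 0 1 (by decide)))
    (hf _ _ _ (hadj 0) (hadj 2) (hne 0 2 (by decide)))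
    (hf _ _ _ (hadj 1) (hadj 2) (hne 1 2 (by decide)))

theorem girth_official {S : Sys V E L} (hb : Base S) (hg : Gir S) (v : V)
    (c : (GG S hb).Walk v v) (hc : c.IsCycle) : 5 ≤ c.length := by
  have h3 := hc.three_le_length
  by_contra hlt
  rcases c with _ | ⟨h1, c⟩
  · simp at h3
  rcases c with _ | ⟨h2, c⟩
  · simp at h3
  rcases c with _ | ⟨h3', c⟩
  · simp at h3
  rcases c with _ | ⟨h4, c⟩
  · exact hg.tri _ _ _ h1 h2 h3'
  rcases c with _ | ⟨h5, c⟩
  · have hn := hc.support_nodup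
    simp only [SimpleGraph.Walk.support_cons, SimpleGraph.Walk.support_nil, List.tail_cons,
      List.nodup_cons, List.mem_cons, List.not_mem_nil, or_false, not_or] at hn
    exact hg.quad _ _ _ _ (fun h => hn.2.1.2 h.symm) hn.1.2.1 h1 h2 h3' h4
  · simp only [SimpleGraph.Walk.length_cons] at hlt
    omega

theorem cyc_nb {H : SimpleGraph V} (w : V) (c : H.Walk w w) (hc : c.IsCycle) :
    ∃ x, H.Adj w x := by
  rcases c with _ | ⟨h, c⟩
  · exact absurd rfl hc.ne_nil
  · exact ⟨_, h⟩

theorem cyclic_official [Fintype V] [Fintype E] [Fintype L] {S : Sys V E L} (hb : Base S) {i : ℕ}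
    {N : V → ℕ × ℕ} {τ : Equiv.Perm L} (hl : Lab S i N τ) (hc : C4 S)
    (D : Set (Sym2 V)) (hD : D.ncard < 4) (u v : V)
    (c : ((GG S hb).deleteEdges D).Walk u u) (d : ((GG S hb).deleteEdges D).Walk v v)
    (hcc : c.IsCycle) (hdc : d.IsCycle) : ((GG S hb).deleteEdges D).Reachable u v := by
  classical
  obtain ⟨x, hx⟩ := cyc_nb u c hcc
  obtain ⟨y, hy⟩ := cyc_nb v d hdc
  clear hcc hdc c d
  by_contra hnr
  set H := (GG S hb).deleteEdges D with hH
  let b : V → Bool := fun w => decide (H.Reachable u w)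
  have hb1 : ∀ w, b w = true ↔ H.Reachable u w := fun w => by simp [b]
  have hadj : ∀ x y, Ad S x y → b x ≠ b y → s(x, y) ∈ D := by
    intro x y hxy hne
    by_contra hnD
    apply hne
    have h1 : H.Adj x y := by
      rw [hH, SimpleGraph.deleteEdges_adj]
      exact ⟨hxy, hnD⟩
    have : H.Reachable u x ↔ H.Reachable u y :=
      ⟨fun h => h.trans h1.reachable, fun h => h.trans h1.symm.reachable⟩
    simp only [b, this]
  let en : E ⊕ L → Sym2 V := fun x => match x with
    | .inl e => s(S.s e, S.t e)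
    | .inr l => s(S.src l, S.src (S.σ l))
  have hen : Function.Injective en := by
    intro x y hxy
    rcases x with e | l <;> rcases y with e' | l' <;> simp only [en, Sym2.eq_iff] at hxy
    · exact no_par hb hl (.inl e) (.inl e') (S.s e) (S.t e) (Or.inl ⟨rfl, rfl⟩)
        (by rcases hxy with h | h
            · exact Or.inl ⟨h.1.symm, h.2.symm⟩
            · exact Or.inr ⟨h.2.symm, h.1.symm⟩)
    · exact no_par hb hl (.inl e) (.inr l') (S.s e) (S.t e) (Or.inl ⟨rfl, rfl⟩)
        (by rcases hxy with h | h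
            · exact Or.inl ⟨h.1.symm, h.2.symm⟩
            · exact Or.inr ⟨h.2.symm, h.1.symm⟩)
    · exact no_par hb hl (.inr l) (.inl e') (S.src l) (S.src (S.σ l)) (Or.inl ⟨rfl, rfl⟩)
        (by rcases hxy with h | h
            · exact Or.inl ⟨h.1.symm, h.2.symm⟩
            · exact Or.inr ⟨h.2.symm, h.1.symm⟩)
    · exact no_par hb hl (.inr l) (.inr l') (S.src l) (S.src (S.σ l)) (Or.inl ⟨rfl, rfl⟩)
        (by rcases hxy with h | h
            · exact Or.inl ⟨h.1.symm, h.2.symm⟩
            · exact Or.inr ⟨h.2.symm, h.1.symm⟩)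
  have hcost : cost S b ≤ 3 := by
    rw [cost_gc]
    have h1 : ∀ x, gc S b x ≤ if en x ∈ D then 1 else 0 := by
      intro x
      by_cases hx : en x ∈ D
      · rw [if_pos hx]
        rcases x with e | l
        · exact dl_le _ _
        · exact dl_le _ _
      · rw [if_neg hx]
        rcases x with e | l
        · have : b (S.s e) = b (S.t e) := by
            by_contra hne
            exact hx (hadj _ _ (Or.inl ⟨e, Or.inl ⟨rfl, rfl⟩⟩) hne)
          simp [gc, this, dl_self]
        · have : b (S.src l) = b (S.src (S.σ l)) := by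
            by_contra hne
            exact hx (hadj _ _ (Or.inr ⟨l, Or.inl ⟨rfl, rfl⟩⟩) hne)
          simp [gc, this, dl_self]
    refine le_trans (Finset.sum_le_sum fun x _ => h1 x) ?_
    rw [← Finset.sum_filter, Finset.sum_const, smul_eq_mul, mul_one]
    have h2 : (Finset.univ.filter fun x => en x ∈ D).card ≤ D.ncard := by
      rw [← Finset.card_image_of_injective _ hen, ← Set.ncard_coe_finset]
      apply Set.ncard_le_ncard _ (Set.toFinite D)
      intro y hy
      simp only [Finset.coe_image, Finset.coe_filter, Finset.mem_univ, true_and, Set.mem_image,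
        Set.mem_ofPred_eq] at hy
      obtain ⟨x, hx, rfl⟩ := hy
      exact hx
    omega
  obtain ⟨κ, hκ⟩ := hc b hcost
  have bu : b u = true := (hb1 u).mpr (SimpleGraph.Reachable.refl u)
  have bx : b x = true := (hb1 x).mpr hx.reachable
  have bv : b v = false := by
    rw [← Bool.not_eq_true, hb1]
    exact hnr
  have by' : b y = false := by
    rw [← Bool.not_eq_true, hb1]
    exact fun h => hnr (h.trans hy.symm.reachable)
  cases κ
  · exact hx.ne (hκ u x (by rw [bu]; decide) (by rw [bx]; decide))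
  · exact hy.ne (hκ v y (by rw [bv]; decide) (by rw [by']; decide))

theorem rot_official [Fintype V] [Fintype E] [Fintype L] {S : Sys V E L} (hb : Base S) {i : ℕ}
    {N : V → ℕ × ℕ} {τ : Equiv.Perm L} (hl : Lab S i N τ) (hc : C4 S) (hg : Gir S) (hu : Unc S) :
    IsRotationTSnark i (GG S hb) := by
  refine ⟨hl.hi, ⟨cubic hb hl, fun D _ hD => cyclic_official hb hl hc D hD,
    girth_official hb hg, unc_official hb hl hu⟩, ?_⟩
  have hbij : Function.Bijective (fun v => (⟨N v, hl.rng v⟩ : Node i)) := by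
    constructor
    · intro a b h
      exact hl.inj (Subtype.ext_iff.mp h)
    · rintro ⟨p, hp⟩
      obtain ⟨v, hv⟩ := hl.surj p hp.1 hp.2
      exact ⟨v, Subtype.ext hv⟩
  let ψ : V ≃ Node i := Equiv.ofBijective _ hbij
  have hN : ∀ p, N (ψ.symm p) = p.1 := by
    intro p
    have := ψ.apply_symm_apply p
    exact congrArg Subtype.val this
  have hchild : ∀ p q : Node i, IsChild p.1 q.1 → Ad S (ψ.symm p) (ψ.symm q) := by
    intro p q hpq
    have h1 : (N (ψ.symm q)).1 ≠ 0 := by
      rw [hN, hpq.1]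
      omega
    obtain ⟨e, he⟩ := hl.par _ h1
    have h2 := hl.chd e
    rw [he, hN] at h2
    have h3 : N (S.t e) = p.1 := by
      have h4 : (N (S.t e)).1 = p.1.1 := by
        have := h2.1
        have := hpq.1
        omega
      apply Prod.ext h4
      by_cases h0 : p.1.1 = 0
      · have h5 := (hl.rng (S.t e)).2
        have h6 := p.2.2
        rw [h4, h0] at h5
        rw [h0] at h6
        simp only [width, if_true] at h5 h6
        omega
      · rcases h2.2 with h5 | h5
        · omega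
        · rcases hpq.2 with h6 | h6
          · omega
          · rw [h5, h6]
    have h4 : S.t e = ψ.symm p := hl.inj (by rw [h3, hN])
    exact Or.inl ⟨e, Or.inr ⟨he, h4⟩⟩
  refine ⟨ψ.symm, ?_, ?_⟩
  · rintro p q (h | h)
    · exact hchild p q h
    · exact ad_symm (hchild q p h)
  · intro a b hab
    have hleaf : ∀ a, ∃ l, S.src l = ψ.symm (leaf i a) := by
      intro a
      apply hl.leaf'
      rw [hN]
      rfl
    have hshift : ∀ a l, S.src l = ψ.symm (leaf i a) →
        S.src (τ l) = ψ.symm (leaf i (a + width i / 3)) := by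
      intro a l h
      apply hl.inj
      rw [hN]
      apply Prod.ext
      · exact hl.leaf _
      · rw [hl.rot, h, hN]
        simp only [leaf]
        rw [Nat.mod_add_mod]
    obtain ⟨l, hl1⟩ := hleaf a
    obtain ⟨m, hm1⟩ := hleaf b
    change Ad S _ _ at hab ⊢
    rw [← hl1, ← hm1] at hab
    rw [← hshift a l hl1, ← hshift b m hm1]
    rcases hab with ⟨e, h | h⟩ | ⟨k, h | h⟩
    · have h1 := dep hl e
      rw [h.1, h.2, hl.leaf, hl.leaf] at h1
      omega
    · have h1 := dep hl e
      rw [h.1, h.2, hl.leaf, hl.leaf] at h1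
      omega
    · right
      have e1 := hb.inj h.1
      have e2 := hb.inj h.2
      refine ⟨τ l, Or.inl ⟨rfl, ?_⟩⟩
      rw [hl.comm, ← e1, e2]
    · right
      have e1 := hb.inj h.1
      have e2 := hb.inj h.2
      refine ⟨τ m, Or.inr ⟨rfl, ?_⟩⟩
      rw [hl.comm, ← e1, e2]

end Pool.Agent.N366.RS
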