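import Pool.Agent.N366.RS.BaseStep

set_option autoImplicit false

namespace Pool.Agent.N366.RS

theorem dl_comm (a b : Bool) : dl a b = dl b a := by
  revert a b; decide

theorem dl_xor (a b k : Bool) : dl (xor a k) (xor b k) = dl a b := by
  revert a b k; decide

/-- the local cost of the gadget -/
def TT (c : Fin 30 → Bool) (xP xS xr : Bool) : ℕ :=
  (∑ z, dl (c z) (if z = 0 then xP else if z = 15 then xS else c (pz z))) +
    ∑ m : Fin 16, dl (c (path m)) (if m = 15 then xr else c (path (m + 1)))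

def costM (c : Fin 30 → Bool) : ℕ := dl (c 1) (c 0) + dl (c 2) (c 0) + dl (c 3) (c 1) + dl (c 4) (c 1) + dl (c 5) (c 2) + dl (c 6) (c 2) + dl (c 7) (c 3) + dl (c 8) (c 3) + dl (c 9) (c 4) + dl (c 10) (c 4) + dl (c 11) (c 5) + dl (c 12) (c 5) + dl (c 13) (c 6) + dl (c 14) (c 6) + dl (c 16) (c 15) + dl (c 17) (c 15) + dl (c 18) (c 16) + dl (c 19) (c 16) + dl (c 20) (c 17) + dl (c 21) (c 17) + dl (c 22) (c 18) + dl (c 23) (c 18) + dl (c 24) (c 19) + dl (c 25) (c 19) + dl (c 26) (c 20) + dl (c 27) (c 20) + dl (c 28) (c 21) + dl (c 29) (c 21) + dl (c 22) (c 8) + dl (c 8) (c 9) + dl (c 9) (c 12) + dl (c 12) (c 13) + dl (c 13) (c 26) + dl (c 26) (c 29) + dl (c 29) (c 25) + dl (c 25) (c 27) + dl (c 27) (c 28) + dl (c 28) (c 14) + dl (c 14) (c 11) + dl (c 11) (c 7) + dl (c 7) (c 24) + dl (c 24) (c 23) + dl (c 23) (c 10)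

theorem TT_eq (c : Fin 30 → Bool) (xP xS xr : Bool) :
    TT c xP xS xr = costM c + dl (c 0) xP + dl (c 15) xS + dl (c 10) xr := by
  have h1 : (∑ z, dl (c z) (if z = 0 then xP else if z = 15 then xS else c (pz z))) =
      dl (c 0) xP + (dl (c 1) (c 0) + (dl (c 2) (c 0) + (dl (c 3) (c 1) + (dl (c 4) (c 1) + (dl (c 5) (c 2) + (dl (c 6) (c 2) + (dl (c 7) (c 3) + (dl (c 8) (c 3) + (dl (c 9) (c 4) + (dl (c 10) (c 4) + (dl (c 11) (c 5) + (dl (c 12) (c 5) + (dl (c 13) (c 6) + (dl (c 14) (c 6) + (dl (c 15) xS + (dl (c 16) (c 15) + (dl (c 17) (c 15) + (dl (c 18) (c 16) + (dl (c 19) (c 16) + (dl (c 20) (c 17) + (dl (c 21) (c 17) + (dl (c 22) (c 18) + (dl (c 23) (c 18) + (dl (c 24) (c 19) + (dl (c 25) (c 19) + (dl (c 26) (c 20) + (dl (c 27) (c 20) + (dl (c 28) (c 21) + (dl (c 29) (c 21) + 0))))))))))))))))))))))))))))) := by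
    rw [Fin.sum_univ_def]
    rfl
  have h2 : (∑ m : Fin 16, dl (c (path m)) (if m = 15 then xr else c (path (m + 1)))) =
      dl (c 22) (c 8) + (dl (c 8) (c 9) + (dl (c 9) (c 12) + (dl (c 12) (c 13) + (dl (c 13) (c 26) + (dl (c 26) (c 29) + (dl (c 29) (c 25) + (dl (c 25) (c 27) + (dl (c 27) (c 28) + (dl (c 28) (c 14) + (dl (c 14) (c 11) + (dl (c 11) (c 7) + (dl (c 7) (c 24) + (dl (c 24) (c 23) + (dl (c 23) (c 10) + (dl (c 10) xr + 0))))))))))))))) := by
    rw [Fin.sum_univ_def]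
    rfl
  unfold TT costM
  rw [h1, h2]
  omega

def dfs (K : ℕ) : List (List ℕ) → List Bool → ℕ → ℕ → Bool
  | [], _, _, cnt => decide (cnt ≤ K)
  | nb :: rest, acc, bud, cnt =>
    (if (nb.map fun j => dl true (acc.getD j false)).sum ≤ bud then
      dfs K rest (true :: acc) (bud - (nb.map fun j => dl true (acc.getD j false)).sum) (cnt + 1)
      else true) &&
    (if (nb.map fun j => dl false (acc.getD j false)).sum ≤ bud then
      dfs K rest (false :: acc) (bud - (nb.map fun j => dl false (acc.getD j false)).sum) cnt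
      else true)

def lc : List (List ℕ) → List Bool → List Bool → ℕ
  | [], _, _ => 0
  | _ :: _, [], _ => 0
  | nb :: rest, b :: x, acc => (nb.map fun j => dl b (acc.getD j false)).sum + lc rest x (b :: acc)

theorem dfs_sound (K : ℕ) : ∀ (l : List (List ℕ)) (x acc : List Bool) (bud cnt : ℕ),
    x.length = l.length → dfs K l acc bud cnt = true → lc l x acc ≤ bud →
    cnt + (x.map Bool.toNat).sum ≤ K := by
  intro l
  induction l with
  | nil =>
    intro x acc bud cnt hx hd _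
    have : x = [] := List.eq_nil_of_length_eq_zero hx
    subst this
    simpa [dfs] using hd
  | cons nb rest ih =>
    intro x acc bud cnt hx hd hl
    rcases x with _ | ⟨b, x⟩
    · simp at hx
    · simp only [lc] at hl
      simp only [dfs, Bool.and_eq_true] at hd
      simp only [List.length_cons, Nat.add_right_cancel_iff] at hx
      cases b
      · have h1 := hd.2
        rw [if_pos (by omega)] at h1
        have := ih x (false :: acc) _ cnt hx h1 (by omega)
        simpa using this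
      · have h1 := hd.1
        rw [if_pos (by omega)] at h1
        have := ih x (true :: acc) _ (cnt + 1) hx h1 (by omega)
        simp only [List.map_cons, List.sum_cons, Bool.toNat_true]
        omega

def nbs : List (List ℕ) := [[0], [0], [1], [1], [2], [2], [3], [3], [4], [4, 0], [5, 10], [5, 3], [6, 2], [6, 0], [7, 2], [15], [0], [1], [1], [2], [2], [3], [3, 13, 22], [4, 12], [4, 16, 0], [5], [5, 12], [6, 1], [6, 0, 13], [7, 2, 3]]

def nbsM : List (List ℕ) := [[0], [1], [1], [2], [2], [3], [3], [4], [4, 0], [5], [5, 3], [6, 2], [6, 0], [7, 2], [], [0], [1], [1], [2], [2], [3], [3, 13], [4, 12], [4, 16, 0], [5], [5, 12], [6, 1], [6, 0, 13], [7, 2, 3]]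

theorem dfs_ok : dfs 1 nbs [false] 3 0 = true := by decide +kernel
theorem dfsM_ok : dfs 0 nbsM [false] 1 0 = true := by decide +kernel

theorem G2f (c : Fin 30 → Bool)
    (h : costM c + dl (c 0) false + dl (c 15) false + dl (c 22) false + dl (c 10) false ≤ 3) :
    ∀ z w, c z = true → c w = true → z = w := by
  have h1 : lc nbs ((List.finRange 30).map c) [false] =
      ((dl (c 0) false + 0) + ((dl (c 1) (c 0) + 0) + ((dl (c 2) (c 0) + 0) + ((dl (c 3) (c 1) + 0) + ((dl (c 4) (c 1) + 0) + ((dl (c 5) (c 2) + 0) + ((dl (c 6) (c 2) + 0) + ((dl (c 7) (c 3) + 0) + ((dl (c 8) (c 3) + 0) + ((dl (c 9) (c 4) + (dl (c 9) (c 8) + 0)) + ((dl (c 10) (c 4) + (dl (c 10) false + 0)) + ((dl (c 11) (c 5) + (dl (c 11) (c 7) + 0)) + ((dl (c 12) (c 5) + (dl (c 12) (c 9) + 0)) + ((dl (c 13) (c 6) + (dl (c 13) (c 12) + 0)) + ((dl (c 14) (c 6) + (dl (c 14) (c 11) + 0)) + ((dl (c 15) false + 0) + ((dl (c 16) (c 15) + 0) + ((dl (c 17) (c 15) + 0) + ((dl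 (c 18) (c 16) + 0) + ((dl (c 19) (c 16) + 0) + ((dl (c 20) (c 17) + 0) + ((dl (c 21) (c 17) + 0) + ((dl (c 22) (c 18) + (dl (c 22) (c 8) + (dl (c 22) false + 0))) + ((dl (c 23) (c 18) + (dl (c 23) (c 10) + 0)) + ((dl (c 24) (c 19) + (dl (c 24) (c 7) + (dl (c 24) (c 23) + 0))) + ((dl (c 25) (c 19) + 0) + ((dl (c 26) (c 20) + (dl (c 26) (c 13) + 0)) + ((dl (c 27) (c 20) + (dl (c 27) (c 25) + 0)) + ((dl (c 28) (c 21) + (dl (c 28) (c 27) + (dl (c 28) (c 14) + 0))) + ((dl (c 29) (c 21) + (dl (c 29) (c 26) + (dl (c 29) (c 25) + 0))) + 0)))))))))))))))))))))))))))))) := by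
    rfl
  have h2 : lc nbs ((List.finRange 30).map c) [false] ≤ 3 := by
    refine le_trans (le_of_eq ?_) h
    rw [h1]
    unfold costM
    rw [dl_comm (c 8) (c 9), dl_comm (c 9) (c 12), dl_comm (c 12) (c 13), dl_comm (c 13) (c 26), dl_comm (c 26) (c 29), dl_comm (c 25) (c 27), dl_comm (c 27) (c 28), dl_comm (c 7) (c 24)]
    ring
  have h3 := dfs_sound 1 nbs ((List.finRange 30).map c) [false] 3 0 (by simp [nbs]) dfs_ok h2
  rw [List.map_map, ← Fin.sum_univ_def, zero_add] at h3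
  intro z w hz hw
  by_contra hne
  have h4 : ∑ i ∈ ({z, w} : Finset (Fin 30)), (Bool.toNat ∘ c) i ≤ ∑ i, (Bool.toNat ∘ c) i :=
    Finset.sum_le_sum_of_subset (Finset.subset_univ _)
  rw [Finset.sum_pair hne] at h4
  simp only [Function.comp, hz, hw, Bool.toNat_true] at h4 h3
  omega

theorem costM_xor (c : Fin 30 → Bool) (k : Bool) : costM (fun z => xor (c z) k) = costM c := by
  simp only [costM, dl_xor]

theorem G2 (c : Fin 30 → Bool) (κ : Bool)
    (h : costM c + dl (c 0) κ + dl (c 15) κ + dl (c 22) κ + dl (c 10) κ ≤ 3) :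
    ∀ z w, c z ≠ κ → c w ≠ κ → z = w := by
  intro z w hz hw
  have e : ∀ a : Bool, dl (xor a κ) false = dl a κ := by cases κ <;> decide
  have e2 : ∀ a : Bool, a ≠ κ → xor a κ = true := by cases κ <;> decide
  refine G2f (fun z => xor (c z) κ) ?_ z w (e2 _ hz) (e2 _ hw)
  rw [costM_xor, e, e, e, e]
  exact h

def tlv (d : Fin 30 → Bool) : List Bool := (List.finRange 29).map fun i : Fin 29 => d i.succ

theorem G1 (c : Fin 30 → Bool) (h : costM c ≤ 1) : ∀ z, c z = c 0 := by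
  have key : ∀ d : Fin 30 → Bool, d 0 = false → costM d ≤ 1 → ∀ z, d z = false := by
    intro d hd0 hd
    have h1 : lc nbsM (tlv d) [d 0] =
        ((dl (d 1) (d 0) + 0) + ((dl (d 2) (d 0) + 0) + ((dl (d 3) (d 1) + 0) + ((dl (d 4) (d 1) + 0) + ((dl (d 5) (d 2) + 0) + ((dl (d 6) (d 2) + 0) + ((dl (d 7) (d 3) + 0) + ((dl (d 8) (d 3) + 0) + ((dl (d 9) (d 4) + (dl (d 9) (d 8) + 0)) + ((dl (d 10) (d 4) + 0) + ((dl (d 11) (d 5) + (dl (d 11) (d 7) + 0)) + ((dl (d 12) (d 5) + (dl (d 12) (d 9) + 0)) + ((dl (d 13) (d 6) + (dl (d 13) (d 12) + 0)) + ((dl (d 14) (d 6) + (dl (d 14) (d 11) + 0)) + (0 + ((dl (d 16) (d 15) + 0) + ((dl (d 17) (d 15) + 0) + ((dl (d 18) (d 16) + 0) + ((dl (d 19) (d 16) + 0) + ((dl (d 20) (d 17) + 0) + ((dl (d 21) (d 17) + 0) + ((dl (d 22) (d 18) + (dl (d 22) (d 8) + 0)) + ((dl (d 23) (d 18) + (dl (d 23) (d 10) + 0)) + ((dl (d 24) (d 19) + (dl (d 24) (d 7) + (dl (d 24) (d 23) + 0))) + ((dl (d 25) (d 19) + 0) + ((dl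 (d 26) (d 20) + (dl (d 26) (d 13) + 0)) + ((dl (d 27) (d 20) + (dl (d 27) (d 25) + 0)) + ((dl (d 28) (d 21) + (dl (d 28) (d 27) + (dl (d 28) (d 14) + 0))) + ((dl (d 29) (d 21) + (dl (d 29) (d 26) + (dl (d 29) (d 25) + 0))) + 0))))))))))))))))))))))))))))) := by
      rfl
    have h2 : lc nbsM (tlv d) [d 0] ≤ 1 := by
      refine le_trans (le_of_eq ?_) hd
      rw [h1]
      unfold costM
      rw [dl_comm (d 8) (d 9), dl_comm (d 9) (d 12), dl_comm (d 12) (d 13), dl_comm (d 13) (d 26), dl_comm (d 26) (d 29), dl_comm (d 25) (d 27), dl_comm (d 27) (d 28), dl_comm (d 7) (d 24)]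
      ring
    rw [hd0] at h2
    have h3 := dfs_sound 0 nbsM (tlv d) [false] 1 0 (by simp [nbsM, tlv]) dfsM_ok h2
    unfold tlv at h3
    rw [List.map_map, ← Fin.sum_univ_def, zero_add] at h3
    intro z
    refine Fin.cases hd0 (fun i => ?_) z
    have h4 := Finset.single_le_sum (f := (Bool.toNat ∘ fun i : Fin 29 => d i.succ))
      (fun _ _ => Nat.zero_le _) (Finset.mem_univ i)
    have h5 : (d i.succ).toNat ≤ 0 := le_trans h4 h3
    rcases hh : d i.succ
    · rfl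
    · rw [hh] at h5
      exact absurd h5 (by decide)
  intro z
  have := key (fun z => xor (c z) (c 0)) (by simp) (by rw [costM_xor]; exact h) z
  simpa using this

end Pool.Agent.N366.RS
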