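import Mathlib

/-!
# Rotation snarks: cubic graphs built from a tree and a permutation of its leaves

`Sys V E L` describes a cubic graph with vertex set `V`, whose edges are the `e : E` (with ends
`s e`, `t e`) and, for every `l : L`, the edge from `src l` to `src (σ l)`.
-/

set_option autoImplicit false

namespace Pool.Agent.N366.RS

/-- colours (the zero colour is `z0`) -/
abbrev F := Bool × Bool

def xr (a b : F) : F := (xor a.1 b.1, xor a.2 b.2)

def z0 : F := (false, false)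

/-- half edges -/
inductive Half (E L : Type)
  | up : E → Half E L
  | out : L → Half E L
  | inn : L → Half E L

structure Sys (V E L : Type) where
  s : E → V
  t : E → V
  src : L → V
  σ : Equiv.Perm L
  inc : V → Fin 3 → Half E L

variable {V E L : Type}

def At (S : Sys V E L) (v : V) : Half E L → Prop
  | .up e => S.s e = v ∨ S.t e = v
  | .out l => S.src l = v
  | .inn l => S.src (S.σ l) = v

structure Base (S : Sys V E L) : Prop where
  ne : ∀ e, S.s e ≠ S.t e
  s1 : ∀ l, S.σ l ≠ l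
  s2 : ∀ l, S.σ (S.σ l) ≠ l
  inj : Function.Injective S.src
  inc_inj : ∀ v, Function.Injective (S.inc v)
  inc_iff : ∀ v h, At S v h ↔ ∃ k, S.inc v k = h
  shape : ∀ v, (∀ k, ∃ e, S.inc v k = .up e) ∨ ∃ e l, S.src l = v ∧ S.inc v 0 = .up e ∧
    S.inc v 1 = .out l ∧ S.inc v 2 = .inn (S.σ.symm l)

def Up (S : Sys V E L) (u v : V) : Prop :=
  ∃ e, (S.s e = u ∧ S.t e = v) ∨ (S.s e = v ∧ S.t e = u)

def Ou (S : Sys V E L) (u v : V) : Prop :=
  ∃ l, (S.src l = u ∧ S.src (S.σ l) = v) ∨ (S.src l = v ∧ S.src (S.σ l) = u)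

def Ad (S : Sys V E L) (u v : V) : Prop := Up S u v ∨ Ou S u v

structure Gir (S : Sys V E L) : Prop where
  tri : ∀ a b c, Ad S a b → Ad S b c → Ad S c a → False
  quad : ∀ a b c d, a ≠ c → b ≠ d → Ad S a b → Ad S b c → Ad S c d → Ad S d a → False

def cv (f : E → F) (x : L → F) : Half E L → F
  | .up e => f e
  | .out l => x l
  | .inn l => x l

structure Col (S : Sys V E L) (f : E → F) (x : L → F) : Prop where
  f0 : ∀ e, f e ≠ z0
  x0 : ∀ l, x l ≠ z0
  sum : ∀ v, xr (xr (cv f x (S.inc v 0)) (cv f x (S.inc v 1))) (cv f x (S.inc v 2)) = z0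

def Unc (S : Sys V E L) : Prop := ∀ f x, ¬ Col S f x

def dl (a b : Bool) : ℕ := if a = b then 0 else 1

def cost [Fintype E] [Fintype L] (S : Sys V E L) (b : V → Bool) : ℕ :=
  (∑ e, dl (b (S.s e)) (b (S.t e))) + ∑ l, dl (b (S.src l)) (b (S.src (S.σ l)))

def C4 [Fintype E] [Fintype L] (S : Sys V E L) : Prop :=
  ∀ b, cost S b ≤ 3 → ∃ κ, ∀ u v, b u ≠ κ → b v ≠ κ → u = v

/-! ### The gadget -/

/-- inner parent (the roots are `0` and `15`) -/
def pz (z : Fin 30) : Fin 30 :=
  if z.val < 15 then ⟨(z.val - 1) / 2, by omega⟩ else ⟨15 + (z.val - 16) / 2, by omega⟩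

def lf (z : Fin 30) : Bool := (decide (7 ≤ z.val) && decide (z.val < 15)) || decide (22 ≤ z.val)

def c1 (z : Fin 30) : Fin 30 :=
  if h : z.val < 7 then ⟨2 * z.val + 1, by omega⟩ else
    if h2 : 15 ≤ z.val ∧ z.val < 22 then ⟨2 * z.val - 14, by omega⟩ else z

def c2 (z : Fin 30) : Fin 30 :=
  if h : z.val < 7 then ⟨2 * z.val + 2, by omega⟩ else
    if h2 : 15 ≤ z.val ∧ z.val < 22 then ⟨2 * z.val - 13, by omega⟩ else z

/-- the path through the leaves -/
def path (m : Fin 16) : Fin 30 :=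
  (![22, 8, 9, 12, 13, 26, 29, 25, 27, 28, 14, 11, 7, 24, 23, 10] : Fin 16 → Fin 30) m

/-- the position of a leaf on the path -/
def pos (z : Fin 30) : Fin 16 :=
  (![0, 0, 0, 0, 0, 0, 0, 12, 1, 2, 15, 11, 3, 4, 10, 0, 0, 0, 0, 0, 0, 0, 0, 14, 13, 7, 5, 8, 9, 6] :
    Fin 30 → Fin 16) z

theorem pos_path : ∀ m, pos (path m) = m := by decide +kernel
theorem lf_path : ∀ m, lf (path m) = true := by decide +kernel
theorem path_pos : ∀ z, lf z = true → path (pos z) = z := by decide +kernel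
theorem path_inj : Function.Injective path := fun a b h => by
  rw [← pos_path a, ← pos_path b, h]

theorem kid : ∀ z w : Fin 30, w ≠ 0 → w ≠ 15 →
    (pz w = z ↔ (lf z = false ∧ (w = c1 z ∨ w = c2 z))) := by decide +kernel
theorem kid0 : ∀ z : Fin 30, lf z = false →
    c1 z ≠ 0 ∧ c2 z ≠ 0 ∧ c1 z ≠ 15 ∧ c2 z ≠ 15 ∧ z ≠ c1 z ∧ z ≠ c2 z ∧ c1 z ≠ c2 z := by
  decide +kernel
theorem pz_ne : ∀ z : Fin 30, z ≠ 0 → z ≠ 15 → pz z ≠ z := by decide +kernel

/-- the permutation of the new leaves -/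
def σs (σ : Equiv.Perm L) : Equiv.Perm (L × Fin 16) where
  toFun p := if p.2 = 15 then (σ p.1, 0) else (p.1, p.2 + 1)
  invFun p := if p.2 = 0 then (σ.symm p.1, 15) else (p.1, p.2 - 1)
  left_inv := by
    rintro ⟨l, m⟩
    by_cases h : m = 15
    · simp [h]
    · have h1 : m + 1 ≠ 0 := by
        intro h2
        apply h
        have : ∀ m : Fin 16, m + 1 = 0 → m = 15 := by decide
        exact this m h2
      simp [h, h1]
  right_inv := by
    rintro ⟨l, m⟩
    by_cases h : m = 0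
    · simp [h]
    · have h1 : m - 1 ≠ 15 := by
        intro h2
        apply h
        have : ∀ m : Fin 16, m - 1 = 15 → m = 0 := by decide
        exact this m h2
      simp [h, h1]

theorem σs_last (σ : Equiv.Perm L) (l : L) : σs σ (l, 15) = (σ l, 0) := by simp [σs]

theorem σs_ne (σ : Equiv.Perm L) (l : L) (m : Fin 16) (h : m ≠ 15) :
    σs σ (l, m) = (l, m + 1) := by simp [σs, h]

theorem σs_symm0 (σ : Equiv.Perm L) (l : L) : (σs σ).symm (l, 0) = (σ.symm l, 15) := by
  simp [σs]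

theorem σs_symm (σ : Equiv.Perm L) (l : L) (m : Fin 16) (h : m ≠ 0) :
    (σs σ).symm (l, m) = (l, m - 1) := by simp [σs, h]

def ts (S : Sys V E L) : E ⊕ (L × Fin 30) → V ⊕ (L × Fin 30)
  | .inl e => .inl (S.t e)
  | .inr p => if p.2 = 0 then .inl (S.src p.1) else
      if p.2 = 15 then .inl (S.src (S.σ p.1)) else .inr (p.1, pz p.2)

def tr : Half E L → Half (E ⊕ (L × Fin 30)) (L × Fin 16)
  | .up e => .up (.inl e)
  | .out l => .up (.inr (l, 0))
  | .inn l => .up (.inr (l, 15))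

def incG (σ : Equiv.Perm L) (l : L) (z : Fin 30) (k : Fin 3) :
    Half (E ⊕ (L × Fin 30)) (L × Fin 16) :=
  if k = 0 then .up (.inr (l, z)) else
    if lf z then (if k = 1 then .out (l, pos z) else .inn ((σs σ).symm (l, pos z)))
    else (if k = 1 then .up (.inr (l, c1 z)) else .up (.inr (l, c2 z)))

/-- the superposition step -/
def step (S : Sys V E L) : Sys (V ⊕ (L × Fin 30)) (E ⊕ (L × Fin 30)) (L × Fin 16) where
  s := Sum.map S.s id
  t := ts S
  src p := .inr (p.1, path p.2)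
  σ := σs S.σ
  inc
    | .inl v => fun k => tr (S.inc v k)
    | .inr p => incG S.σ p.1 p.2

end Pool.Agent.N366.RS
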