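import Pool.Agent.N366.RS.Pet

set_option autoImplicit false

namespace Pool.Agent.N366.RS

theorem pack (k : ℕ) : ∃ (V E L : Type) (_ : Fintype V) (_ : Fintype E) (_ : Fintype L)
    (S : Sys V E L) (_ : Base S) (N : V → ℕ × ℕ) (τ : Equiv.Perm L),
    Lab S (4 * k + 2) N τ ∧ Gir S ∧ Unc S ∧ C4 S := by
  induction k with
  | zero => exact ⟨_, _, _, inferInstance, inferInstance, inferInstance, pet, pet_base, Np, τp,
      pet_lab, pet_gir, pet_unc, pet_c4⟩
  | succ k ih =>
    obtain ⟨V, E, L, hV, hE, hL, S, hb, N, τ, hl, hg, hu, hc⟩ := ih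
    exact ⟨V ⊕ (L × Fin 30), E ⊕ (L × Fin 30), L × Fin 16, inferInstance, inferInstance,
      inferInstance, step S, base_step hb, NS S (4 * k + 2) N, _, lab_step hb hl, gir_step hb hg,
      unc_step hb hu, c4_step hb hc⟩

theorem exists_rot (k : ℕ) : ∃ (V : Type) (_ : Finite V) (G : SimpleGraph V),
    IsRotationTSnark (4 * k + 2) G := by
  obtain ⟨V, E, L, hV, hE, hL, S, hb, N, τ, hl, hg, hu, hc⟩ := pack k
  exact ⟨V, inferInstance, GG S hb, rot_official hb hl hc hg hu⟩

theorem node_ne {i j : ℕ} (hij : i < j) [Finite (Node j)] (e : Node j ≃ Node i) : False := by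
  let ι : Node i → Node j := fun p => ⟨p.1, p.2.1.trans hij.le, p.2.2⟩
  have hι : Function.Injective ι := fun p q h => Subtype.ext (congrArg (fun x => x.1) h)
  have h1 : Function.Surjective (ι ∘ e) :=
    Finite.injective_iff_surjective.mp (hι.comp e.injective)
  obtain ⟨p, hp⟩ := h1 ⟨(j, 0), le_rfl, width_pos j⟩
  have h2 := congrArg (fun x => x.1.1) hp
  simp only [Function.comp, ι] at h2
  have h3 := (e p).2.1
  omega

theorem non_iso {i j : ℕ} (hij : i ≠ j) {V W : Type} [Finite V] [Finite W] {G : SimpleGraph V}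
    {H : SimpleGraph W} (hG : IsRotationTSnark i G) (hH : IsRotationTSnark j H) :
    IsEmpty (G ≃g H) := by
  refine ⟨fun f => ?_⟩
  obtain ⟨-, -, φ, -⟩ := hG
  obtain ⟨-, -, ψ, -⟩ := hH
  have hi : Finite (Node i) := Finite.of_equiv V φ.symm
  have hj : Finite (Node j) := Finite.of_equiv W ψ.symm
  rcases lt_or_gt_of_ne hij with h | h
  · exact node_ne h (ψ.trans (f.toEquiv.symm.trans φ.symm))
  · exact node_ne h (φ.trans (f.toEquiv.trans ψ.symm))

end Pool.Agent.N366.RS
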