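import Pool.Agent.N366.RS.BaseStep

set_option autoImplicit false

namespace Pool.Agent.N366.RS

variable {V E L : Type}

theorem up_symm {S : Sys V E L} {u v : V} (h : Up S u v) : Up S v u := by
  obtain ⟨e, h | h⟩ := h
  · exact ⟨e, Or.inr h⟩
  · exact ⟨e, Or.inl h⟩

theorem ad_symm {S : Sys V E L} {u v : V} (h : Ad S u v) : Ad S v u := by
  rcases h with h | ⟨l, h | h⟩
  · exact Or.inl (up_symm h)
  · exact Or.inr ⟨l, Or.inr h⟩
  · exact Or.inr ⟨l, Or.inl h⟩

theorem ad_irrefl {S : Sys V E L} (hb : Base S) (u : V) : ¬ Ad S u u := by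
  rintro (⟨e, h | h⟩ | ⟨l, h | h⟩)
  · exact hb.ne e (by rw [h.1, h.2])
  · exact hb.ne e (by rw [h.1, h.2])
  · exact hb.s1 l (hb.inj (by rw [h.1, h.2]))
  · exact hb.s1 l (hb.inj (by rw [h.1, h.2]))

def MA (z w : Fin 30) : Bool :=
  (decide (w ≠ 0) && decide (w ≠ 15) && decide (pz w = z)) ||
  (decide (z ≠ 0) && decide (z ≠ 15) && decide (pz z = w)) ||
  (lf z && lf w && (decide ((pos z).val + 1 = (pos w).val) || decide ((pos w).val + 1 = (pos z).val)))

def nbG (z : Fin 30) : List (Fin 30) := (List.finRange 30).filter fun w => MA z w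

def nbT : List (List (Fin 30)) := (List.finRange 30).map nbG

theorem MA_symm : ∀ z w, MA z w = true → MA w z = true := by decide +kernel
theorem MA_ends : ∀ z ∈ [(0 : Fin 30), 15, 10, 22], ∀ w ∈ [(0 : Fin 30), 15, 10, 22],
    MA z w = false := by decide +kernel
theorem M_tri : ∀ a b, MA a b = true → ∀ c, MA b c = true → MA c a = false := by decide +kernel
theorem M_quad : ∀ a b, MA a b = true → ∀ c, MA b c = true → a ≠ c → ∀ d, MA c d = true → b ≠ d →
    MA d a = false := by decide +kernel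

def R (σ : Equiv.Perm L) (p q : L × Fin 30) : Prop :=
  (q.1 = p.1 ∧ MA p.2 q.2 = true) ∨ (q.1 = σ p.1 ∧ p.2 = 10 ∧ q.2 = 22) ∨
    (p.1 = σ q.1 ∧ p.2 = 22 ∧ q.2 = 10)

theorem R_symm {σ : Equiv.Perm L} {p q : L × Fin 30} (h : R σ p q) : R σ q p := by
  rcases h with h | h | h
  · exact Or.inl ⟨h.1.symm, MA_symm _ _ h.2⟩
  · exact Or.inr (Or.inr ⟨h.1, h.2.2, h.2.1⟩)
  · exact Or.inr (Or.inl ⟨h.1, h.2.2, h.2.1⟩)

theorem path_succ : ∀ m : Fin 16, m ≠ 15 → MA (path m) (path (m + 1)) = true := by decide +kernel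

theorem ad_ll {S : Sys V E L} {u v : V} (h : Ad (step S) (.inl u) (.inl v)) : Up S u v := by
  rcases h with ⟨e | ⟨l, z⟩, h | h⟩ | ⟨⟨l, m⟩, h | h⟩
  · simp only [step, Sum.map_inl, Sum.inl.injEq, ts] at h
    exact ⟨e, Or.inl h⟩
  · simp only [step, Sum.map_inl, Sum.inl.injEq, ts] at h
    exact ⟨e, Or.inr h⟩
  · simp [step] at h
  · simp [step] at h
  · simp [step] at h
  · simp [step] at h

theorem ad_lr {S : Sys V E L} {u : V} {p : L × Fin 30} (h : Ad (step S) (.inl u) (.inr p)) :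
    (p.2 = 0 ∧ u = S.src p.1) ∨ (p.2 = 15 ∧ u = S.src (S.σ p.1)) := by
  rcases h with ⟨e | ⟨l, z⟩, h | h⟩ | ⟨⟨l, m⟩, h | h⟩
  · simp [step, ts] at h
  · simp [step, ts] at h
  · simp [step] at h
  · simp only [step, Sum.map_inr, id, Sum.inr.injEq, ts] at h
    obtain ⟨rfl, h⟩ := h
    by_cases h0 : z = 0
    · simp only [h0, if_true, Sum.inl.injEq] at h
      exact Or.inl ⟨h0, h.symm⟩
    · by_cases h15 : z = 15
      · simp only [h0, h15, if_true, if_false, Sum.inl.injEq] at h
        right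
        refine ⟨h15, ?_⟩
        have e : (15 : Fin 30) ≠ 0 := by decide
        simp only [e, if_false, Sum.inl.injEq] at h
        exact h.symm
      · simp [h0, h15] at h
  · simp [step] at h
  · simp [step] at h

theorem ad_rr {S : Sys V E L} {p q : L × Fin 30} (h : Ad (step S) (.inr p) (.inr q)) :
    R S.σ p q := by
  have key : ∀ (l : L) (z : Fin 30) (q : L × Fin 30), ts S (.inr (l, z)) = .inr q →
      q.1 = l ∧ MA z q.2 = true := by
    intro l z q h
    simp only [ts] at h
    by_cases h0 : z = 0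
    · simp [h0] at h
    · by_cases h15 : z = 15
      · simp [h15] at h
      · simp only [h0, h15, if_false, Sum.inr.injEq] at h
        subst h
        refine ⟨rfl, ?_⟩
        simp [MA, h0, h15]
  have key2 : ∀ (l : L) (m : Fin 16) (q : L × Fin 30), (step S).src ((step S).σ (l, m)) = .inr q →
      R S.σ (l, path m) q := by
    intro l m q h
    simp only [step] at h
    by_cases h15 : m = 15
    · subst h15
      rw [σs_last] at h
      simp only [Sum.inr.injEq] at h
      subst h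
      exact Or.inr (Or.inl ⟨rfl, rfl, rfl⟩)
    · rw [σs_ne _ _ _ h15] at h
      simp only [Sum.inr.injEq] at h
      subst h
      exact Or.inl ⟨rfl, path_succ m h15⟩
  rcases h with ⟨e | ⟨l, z⟩, h | h⟩ | ⟨⟨l, m⟩, h | h⟩
  · simp [step] at h
  · simp [step] at h
  · simp only [step, Sum.map_inr, id, Sum.inr.injEq] at h
    obtain ⟨rfl, h⟩ := h
    exact Or.inl (key l z q h)
  · simp only [step, Sum.map_inr, id, Sum.inr.injEq] at h
    obtain ⟨rfl, h⟩ := h
    have := key l z p h
    exact R_symm (Or.inl this)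
  · have h1 : p = (l, path m) := by
      have := h.1
      simp only [step, Sum.inr.injEq] at this
      exact this.symm
    rw [h1]
    exact key2 l m q h.2
  · have h1 : q = (l, path m) := by
      have := h.1
      simp only [step, Sum.inr.injEq] at this
      exact this.symm
    rw [h1]
    exact R_symm (key2 l m p h.2)

/-- a gadget vertex has at most one old neighbour -/
theorem lrl {S : Sys V E L} {u w : V} {p : L × Fin 30} (h1 : Ad (step S) (.inl u) (.inr p))
    (h2 : Ad (step S) (.inr p) (.inl w)) : u = w := by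
  have h1 := ad_lr h1
  have h2 := ad_lr (ad_symm h2)
  rcases h1 with h1 | h1 <;> rcases h2 with h2 | h2
  · rw [h1.2, h2.2]
  · rw [h1.1] at h2
    exact absurd h2.1 (by decide)
  · rw [h1.1] at h2
    exact absurd h2.1 (by decide)
  · rw [h1.2, h2.2]

theorem nrr {S : Sys V E L} {p q : L × Fin 30} (h1 : p.2 = 0 ∨ p.2 = 15)
    (h2 : q.2 = 0 ∨ q.2 = 15) : ¬ R S.σ p q := by
  rintro (h | h | h)
  · have := MA_ends p.2 (by rcases h1 with h | h <;> simp [h]) q.2
      (by rcases h2 with h | h <;> simp [h])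
    rw [h.2] at this
    exact Bool.noConfusion this
  · rw [h.2.1] at h1
    exact absurd h1 (by decide)
  · rw [h.2.1] at h1
    exact absurd h1 (by decide)

theorem sm {S : Sys V E L} {p q : L × Fin 30} (h1 : p.2 = 0 ∨ p.2 = 15)
    (h : R S.σ p q) : q.1 = p.1 ∧ MA p.2 q.2 = true := by
  rcases h with h | h | h
  · exact h
  · rw [h.2.1] at h1
    exact absurd h1 (by decide)
  · rw [h.2.1] at h1
    exact absurd h1 (by decide)

/-- no short cycle uses a through edge -/
theorem thr4 {S : Sys V E L} (hb : Base S) (l : L) {r s : L × Fin 30}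
    (h1 : R S.σ (S.σ l, 22) r) (h2 : R S.σ r s) (h3 : R S.σ s (l, 10)) (h4 : r ≠ (l, 10))
    (h5 : s ≠ (S.σ l, 22)) : False := by
  have e1 : r.1 = S.σ l ∧ MA 22 r.2 = true := by
    rcases h1 with h | h | h
    · exact h
    · exact absurd h.2.1 (by simp)
    · exfalso
      apply h4
      have := S.σ.injective h.1
      exact Prod.ext this.symm h.2.2
  have e2 : s.1 = l ∧ MA s.2 10 = true := by
    rcases h3 with h | h | h
    · exact ⟨h.1.symm, h.2⟩
    · exact absurd h.2.2 (by simp)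
    · exfalso
      apply h5
      exact Prod.ext h.1 h.2.1
  rcases h2 with h | h | h
  · exact hb.s1 l (by rw [← e1.1, ← e2.1, h.1])
  · exact hb.s2 l (by rw [← e1.1, ← h.1, e2.1])
  · have h6 := e1.2
    rw [h.2.1] at h6
    exact absurd h6 (by decide +kernel)

theorem M2222 : ¬ MA 22 22 = true := by decide +kernel
theorem M1010 : ¬ MA 10 10 = true := by decide +kernel

theorem thr3 {S : Sys V E L} (hb : Base S) (l : L) {r : L × Fin 30}
    (h1 : R S.σ (S.σ l, 22) r) (h3 : R S.σ r (l, 10)) : False := by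
  rcases h1 with h | h | h
  · rcases h3 with h' | h' | h'
    · exact hb.s1 l (by rw [← h'.1] at h; exact h.1.symm)
    · exact absurd h'.2.2 (by simp)
    · have h6 := h.2
      rw [h'.2.1] at h6
      exact M2222 h6
  · exact absurd h.2.1 (by simp)
  · have h7 := S.σ.injective h.1
    have h8 : r = (l, 10) := Prod.ext h7.symm h.2.2
    rw [h8] at h3
    rcases h3 with h' | h' | h'
    · exact M1010 h'.2
    · exact absurd h'.2.2 (by simp)
    · exact absurd h'.2.1 (by simp)

theorem q2 {S : Sys V E L} {u w : V} {p q : L × Fin 30}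
    (h1 : Ad (step S) (.inl w) (.inr p)) (h2 : Ad (step S) (.inr p) (.inr q))
    (h3 : Ad (step S) (.inr q) (.inl u)) : False := by
  have h1 := ad_lr h1
  have h3 := ad_lr (ad_symm h3)
  refine nrr (S := S) ?_ ?_ (ad_rr h2)
  · rcases h1 with h | h
    · exact Or.inl h.1
    · exact Or.inr h.1
  · rcases h3 with h | h
    · exact Or.inl h.1
    · exact Or.inr h.1

theorem q3 {S : Sys V E L} (hb : Base S) {u : V} {p q r : L × Fin 30} (hpr : p ≠ r)
    (h1 : Ad (step S) (.inl u) (.inr p)) (h2 : Ad (step S) (.inr p) (.inr q))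
    (h3 : Ad (step S) (.inr q) (.inr r)) (h4 : Ad (step S) (.inr r) (.inl u)) : False := by
  have h1 := ad_lr h1
  have h4 := ad_lr (ad_symm h4)
  have k2 := sm (S := S) (by
    rcases h1 with h | h
    · exact Or.inl h.1
    · exact Or.inr h.1) (ad_rr h2)
  have k3 := sm (S := S) (by
    rcases h4 with h | h
    · exact Or.inl h.1
    · exact Or.inr h.1) (ad_rr (ad_symm h3))
  have k4 : p.1 = r.1 := by rw [← k2.1, ← k3.1]
  rcases h1 with h1 | h1 <;> rcases h4 with h4 | h4
  · exact hpr (Prod.ext k4 (by rw [h1.1, h4.1]))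
  · exact hb.s1 r.1 (hb.inj (by rw [← h4.2, h1.2, k4]))
  · exact hb.s1 r.1 (hb.inj (by rw [← h4.2, h1.2, k4]))
  · exact hpr (Prod.ext k4 (by rw [h1.1, h4.1]))

theorem q4 {S : Sys V E L} (hb : Base S) {a b c d : L × Fin 30} (hac : a ≠ c) (hbd : b ≠ d)
    (h1 : R S.σ a b) (h2 : R S.σ b c) (h3 : R S.σ c d) (h4 : R S.σ d a) : False := by
  have through : ∀ {a b c d : L × Fin 30}, a ≠ c → b ≠ d → (b.1 = S.σ a.1 ∧ a.2 = 10 ∧ b.2 = 22) →
      R S.σ b c → R S.σ c d → R S.σ d a → False := by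
    intro a b c d hac hbd h h2 h3 h4
    have ea : a = (a.1, 10) := Prod.ext rfl h.2.1
    have eb : b = (S.σ a.1, 22) := Prod.ext h.1 h.2.2
    rw [ea] at h4 hac
    rw [eb] at h2 hbd
    exact thr4 hb a.1 h2 h3 h4 (fun h => hac h.symm) (fun h => hbd h.symm)
  have both : ∀ {a b c d : L × Fin 30}, a ≠ c → b ≠ d → R S.σ a b → R S.σ b c → R S.σ c d →
      R S.σ d a → (b.1 = a.1 ∧ MA a.2 b.2 = true) := by
    intro a b c d hac hbd h1 h2 h3 h4
    rcases h1 with h | h | h
    · exact h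
    · exact (through hac hbd h h2 h3 h4).elim
    · exact (through hbd hac ⟨h.1, h.2.2, h.2.1⟩ (R_symm h4) (R_symm h3) (R_symm h2)).elim
  have k1 := both hac hbd h1 h2 h3 h4
  have k2 := both hbd hac.symm h2 h3 h4 h1
  have k3 := both hac.symm hbd.symm h3 h4 h1 h2
  have k4 := both hbd.symm hac h4 h1 h2 h3
  have n1 : a.2 ≠ c.2 := fun h => hac (Prod.ext (by rw [k2.1, k1.1]) h)
  have n2 : b.2 ≠ d.2 := fun h => hbd (Prod.ext (by rw [k3.1, k2.1]) h)
  have := M_quad a.2 b.2 k1.2 c.2 k2.2 n1 d.2 k3.2 n2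
  rw [k4.2] at this
  exact Bool.noConfusion this

theorem q4t {S : Sys V E L} (hb : Base S) {a b c : L × Fin 30}
    (h1 : R S.σ a b) (h2 : R S.σ b c) (h3 : R S.σ c a) : False := by
  have through : ∀ {a b c : L × Fin 30}, (b.1 = S.σ a.1 ∧ a.2 = 10 ∧ b.2 = 22) →
      R S.σ b c → R S.σ c a → False := by
    intro a b c h h2 h3
    have ea : a = (a.1, 10) := Prod.ext rfl h.2.1
    have eb : b = (S.σ a.1, 22) := Prod.ext h.1 h.2.2
    rw [ea] at h3
    rw [eb] at h2
    exact thr3 hb a.1 h2 h3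
  have both : ∀ {a b c : L × Fin 30}, R S.σ a b → R S.σ b c → R S.σ c a →
      (b.1 = a.1 ∧ MA a.2 b.2 = true) := by
    intro a b c h1 h2 h3
    rcases h1 with h | h | h
    · exact h
    · exact (through h h2 h3).elim
    · exact (through ⟨h.1, h.2.2, h.2.1⟩ (R_symm h3) (R_symm h2)).elim
  have k1 := both h1 h2 h3
  have k2 := both h2 h3 h1
  have k3 := both h3 h1 h2
  have := M_tri a.2 b.2 k1.2 c.2 k2.2
  rw [k3.2] at this
  exact Bool.noConfusion this

theorem gir_step {S : Sys V E L} (hb : Base S) (hg : Gir S) : Gir (step S) where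
  tri := by
    have hb' := base_step hb
    rintro (a | a) (b | b) (c | c) h1 h2 h3
    · exact hg.tri a b c (Or.inl (ad_ll h1)) (Or.inl (ad_ll h2)) (Or.inl (ad_ll h3))
    · have := lrl h2 h3
      subst this
      exact ad_irrefl hb' _ h1
    · have := lrl h1 h2
      subst this
      exact ad_irrefl hb' _ h3
    · exact q2 h1 h2 h3
    · have := lrl h3 h1
      subst this
      exact ad_irrefl hb' _ h2
    · exact q2 h2 h3 h1
    · exact q2 h3 h1 h2
    · exact q4t hb (ad_rr h1) (ad_rr h2) (ad_rr h3)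
  quad := by
    rintro (a | a) (b | b) (c | c) (d | d) hac hbd h1 h2 h3 h4
    · exact hg.quad a b c d (fun h => hac (by rw [h])) (fun h => hbd (by rw [h]))
        (Or.inl (ad_ll h1)) (Or.inl (ad_ll h2)) (Or.inl (ad_ll h3)) (Or.inl (ad_ll h4))
    · exact hac (by rw [lrl h3 h4])
    · exact hbd (by rw [lrl h2 h3])
    · exact q2 h2 h3 h4
    · exact hac (by rw [lrl h1 h2])
    · exact hac (by rw [lrl h1 h2])
    · exact q2 h1 h2 h3
    · exact q3 hb (fun h => hbd (by rw [h])) h1 h2 h3 h4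
    · exact hbd (by rw [lrl h4 h1])
    · exact q2 h3 h4 h1
    · exact hbd (by rw [lrl h4 h1])
    · exact q3 hb (fun h => hac (by rw [h])) h2 h3 h4 h1
    · exact q2 h4 h1 h2
    · exact q3 hb (fun h => hbd (by rw [h])) h3 h4 h1 h2
    · exact q3 hb (fun h => hac (by rw [h])) h4 h1 h2 h3
    · exact q4 hb (fun h => hac (by rw [h])) (fun h => hbd (by rw [h]))
        (ad_rr h1) (ad_rr h2) (ad_rr h3) (ad_rr h4)

end Pool.Agent.N366.RS
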