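import Pool.Agent.N366.RS.Bridge

set_option autoImplicit false

namespace Pool.Agent.N366.RS

variable {V E L : Type}

def hd (z : Fin 30) : ℕ :=
  (![0, 1, 1, 2, 2, 2, 2, 3, 3, 3, 3, 3, 3, 3, 3, 0, 1, 1, 2, 2, 2, 2, 3, 3, 3, 3, 3, 3, 3, 3] :
    Fin 30 → ℕ) z

def rm (z : Fin 30) : ℕ :=
  (![1, 2, 3, 4, 5, 6, 7, 8, 9, 10, 11, 12, 13, 14, 15, 0, 0, 1, 0, 1, 2, 3, 0, 1, 2, 3, 4, 5, 6, 7] :
    Fin 30 → ℕ) z

theorem hd_le : ∀ z, hd z ≤ 3 := by decide +kernel
theorem rm_lt : ∀ z, rm z < 2 ^ (hd z + 1) := by decide +kernel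
theorem hr_inj : ∀ z w, hd z = hd w → rm z = rm w → z = w := by decide +kernel
theorem hd_leaf : ∀ m, hd (path m) = 3 := by decide +kernel
theorem leaf_hd : ∀ z, hd z = 3 → lf z = true := by decide +kernel
theorem pz_hr : ∀ z : Fin 30, z ≠ 0 → z ≠ 15 →
    hd z = hd (pz z) + 1 ∧ rm z / 2 = rm (pz z) ∧ (z.val < 15 ↔ (pz z).val < 15) := by
  decide +kernel
theorem hr_ex : ∀ e, e < 4 → ∀ r, r < 2 ^ (e + 1) →
    ∃ z, hd z = e ∧ rm z = r ∧ (z.val < 15 ↔ 2 ^ e ≤ r) := by
  decide +kernel

def lb (S : Sys V E L) (N : V → ℕ × ℕ) (l : L) : ℕ := (N (S.src l)).2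

def LB (S : Sys V E L) (N : V → ℕ × ℕ) (l : L) (z : Fin 30) : ℕ :=
  if z.val < 15 then lb S N l else lb S N (S.σ l)

def NS (S : Sys V E L) (i : ℕ) (N : V → ℕ × ℕ) : V ⊕ (L × Fin 30) → ℕ × ℕ
  | .inl v => N v
  | .inr p => (i + 1 + hd p.2, LB S N p.1 p.2 * 2 ^ (hd p.2 + 1) + rm p.2)

theorem width_succ {i e : ℕ} (hi : 2 ≤ i) : width (i + 1 + e) = width i * 2 ^ (e + 1) := by
  unfold width
  rw [if_neg (by omega), if_neg (by omega), mul_assoc, ← pow_add]
  congr 2
  omega

theorem div_mod_eq {a b r s k : ℕ} (hr : r < k) (hs : s < k) (h : a * k + r = b * k + s) :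
    a = b ∧ r = s := by
  have h1 : (a * k + r) / k = a := by
    rw [mul_comm, Nat.mul_add_div (by omega), Nat.div_eq_of_lt hr, add_zero]
  have h2 : (b * k + s) / k = b := by
    rw [mul_comm, Nat.mul_add_div (by omega), Nat.div_eq_of_lt hs, add_zero]
  have h3 : a = b := by rw [← h1, ← h2, h]
  subst h3
  exact ⟨rfl, by omega⟩

theorem lab_step {S : Sys V E L} (hb : Base S) {i : ℕ} {N : V → ℕ × ℕ} {τ : Equiv.Perm L}
    (hl : Lab S i N τ) :
    Lab (step S) (i + 4) (NS S i N) (Equiv.prodCongr τ (Equiv.refl (Fin 16))) := by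
  have hi := hl.hi
  have lb_inj : ∀ l l', lb S N l = lb S N l' → l = l' := by
    intro l l' h
    apply hb.inj
    apply hl.inj
    apply Prod.ext
    · rw [hl.leaf, hl.leaf]
    · exact h
  have lb_lt : ∀ l, lb S N l < width i := by
    intro l
    have := (hl.rng (S.src l)).2
    rw [hl.leaf] at this
    exact this
  have LB_lt : ∀ l z, LB S N l z < width i := by
    intro l z
    unfold LB
    split_ifs <;> exact lb_lt _
  refine ⟨by omega, ?_, ?_, ?_, ?_, ?_, ?_, ?_, ?_, ?_, ?_⟩
  · -- inj
    rintro (v | ⟨l, z⟩) (v' | ⟨l', z'⟩) h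
    · rw [hl.inj h]
    · exfalso
      have h1 := (hl.rng v).1
      have h2 := congrArg Prod.fst h
      simp only [NS] at h2
      omega
    · exfalso
      have h1 := (hl.rng v').1
      have h2 := congrArg Prod.fst h
      simp only [NS] at h2
      omega
    · have h1 := congrArg Prod.fst h
      have h2 := congrArg Prod.snd h
      simp only [NS] at h1 h2
      have h3 : hd z = hd z' := by omega
      have h4 := rm_lt z
      have h5 := rm_lt z'
      rw [← h3] at h2 h5
      obtain ⟨h6, h7⟩ := div_mod_eq h4 h5 h2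
      have h8 := hr_inj z z' h3 h7
      subst h8
      unfold LB at h6
      split_ifs at h6
      · rw [lb_inj _ _ h6]
      · rw [S.σ.injective (lb_inj _ _ h6)]
  · -- rng
    rintro (v | ⟨l, z⟩)
    · have := hl.rng v
      exact ⟨by simp only [NS]; omega, this.2⟩
    · simp only [NS]
      have h1 := hd_le z
      refine ⟨by omega, ?_⟩
      rw [width_succ hi]
      have h2 := LB_lt l z
      have h3 := rm_lt z
      calc LB S N l z * 2 ^ (hd z + 1) + rm z < LB S N l z * 2 ^ (hd z + 1) + 2 ^ (hd z + 1) := by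
            omega
        _ = (LB S N l z + 1) * 2 ^ (hd z + 1) := by ring
        _ ≤ width i * 2 ^ (hd z + 1) := Nat.mul_le_mul_right _ h2
  · -- surj
    rintro ⟨p1, p2⟩ hp1 hp2
    simp only at hp1 hp2
    by_cases h : p1 ≤ i
    · obtain ⟨v, hv⟩ := hl.surj (p1, p2) h hp2
      exact ⟨.inl v, hv⟩
    · obtain ⟨e, rfl⟩ : ∃ e, p1 = i + 1 + e := ⟨p1 - (i + 1), by omega⟩
      rw [width_succ hi] at hp2
      have hk : 0 < 2 ^ (e + 1) := by positivity
      have hq : p2 / 2 ^ (e + 1) < width i := by
        rw [Nat.div_lt_iff_lt_mul hk]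
        exact hp2
      obtain ⟨v, hv⟩ := hl.surj (i, p2 / 2 ^ (e + 1)) le_rfl hq
      obtain ⟨l0, hl0⟩ := hl.leaf' v (by rw [hv])
      obtain ⟨z, hz1, hz2, hz3⟩ := hr_ex e (by omega) (p2 % 2 ^ (e + 1)) (Nat.mod_lt _ hk)
      have hlb : lb S N l0 = p2 / 2 ^ (e + 1) := by
        unfold lb
        rw [hl0, hv]
      by_cases hside : z.val < 15
      · refine ⟨.inr (l0, z), ?_⟩
        simp only [NS, LB, if_pos hside, hlb, hz1, hz2]
        rw [mul_comm, Nat.div_add_mod]
      · refine ⟨.inr (S.σ.symm l0, z), ?_⟩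
        simp only [NS, LB, if_neg hside, Equiv.apply_symm_apply, hlb, hz1, hz2]
        rw [mul_comm, Nat.div_add_mod]
  · -- s_inj
    exact Sum.map_injective.mpr ⟨hl.s_inj, Function.injective_id⟩
  · -- chd
    rintro (e | ⟨l, z⟩)
    · exact hl.chd e
    · by_cases h0 : z = 0
      · subst h0
        simp only [step, ts, if_true, Sum.map_inr, id, NS, LB]
        refine ⟨?_, Or.inr ?_⟩
        · rw [hl.leaf]
          rfl
        · have e1 : hd 0 = 0 := rfl
          have e2 : rm 0 = 1 := rfl
          have e3 : ((0 : Fin 30).val < 15) := by decide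
          simp only [e1, e2, if_pos e3, lb]
          omega
      · by_cases h15 : z = 15
        · subst h15
          have e4 : (15 : Fin 30) ≠ 0 := by decide
          simp only [step, ts, if_neg e4, if_true, Sum.map_inr, id, NS, LB]
          refine ⟨?_, Or.inr ?_⟩
          · rw [hl.leaf]
            rfl
          · have e1 : hd 15 = 0 := rfl
            have e2 : rm 15 = 0 := rfl
            have e3 : ¬ ((15 : Fin 30).val < 15) := by decide
            simp only [e1, e2, if_neg e3, lb]
            omega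
        · obtain ⟨h1, h2, h3⟩ := pz_hr z h0 h15
          simp only [step, ts, if_neg h0, if_neg h15, Sum.map_inr, id, NS]
          refine ⟨by rw [h1]; ring, Or.inr ?_⟩
          have h4 : LB S N l z = LB S N l (pz z) := by
            unfold LB
            by_cases h : z.val < 15
            · rw [if_pos h, if_pos (h3.mp h)]
            · rw [if_neg h, if_neg (fun h' => h (h3.mpr h'))]
          simp only
          rw [← h4, ← h2, h1, pow_succ 2 (hd (pz z) + 1)]
          generalize LB S N l z = x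
          generalize 2 ^ (hd (pz z) + 1) = y
          have : x * (y * 2) = 2 * (x * y) := by ring
          rw [this]
          omega
  · -- par
    rintro (v | ⟨l, z⟩) h
    · obtain ⟨e, he⟩ := hl.par v h
      exact ⟨.inl e, by simp only [step, Sum.map_inl, he]⟩
    · exact ⟨.inr (l, z), rfl⟩
  · -- leaf
    rintro ⟨l, m⟩
    simp only [step, NS, hd_leaf]
  · -- leaf'
    rintro (v | ⟨l, z⟩) h
    · exfalso
      have := (hl.rng v).1
      simp only [NS] at h
      omega
    · simp only [NS] at h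
      have h1 := leaf_hd z (by omega)
      exact ⟨(l, pos z), by simp only [step, path_pos z h1]⟩
  · -- comm
    rintro ⟨l, m⟩
    simp only [step, Equiv.prodCongr_apply, Prod.map_apply, Equiv.refl_apply]
    by_cases h15 : m = 15
    · subst h15
      rw [σs_last, σs_last]
      simp only [Prod.map_apply, Equiv.refl_apply, hl.comm]
    · rw [σs_ne _ _ _ h15, σs_ne _ _ _ h15]
      simp only [Prod.map_apply, Equiv.refl_apply]
  · -- rot
    rintro ⟨l, m⟩
    simp only [step, NS, Equiv.prodCongr_apply, Prod.map_apply, Equiv.refl_apply]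
    have hw : width (i + 4) = width i * 16 := width_succ (e := 3) hi
    have hw3 : width (i + 4) / 3 = width i / 3 * 16 := by
      rw [hw]
      have : ∃ k, width i = 3 * k := ⟨2 ^ (i - 1), by unfold width; rw [if_neg (by omega)]⟩
      obtain ⟨k, hk⟩ := this
      rw [hk]
      omega
    have hr : rm (path m) < 16 := by
      have := rm_lt (path m)
      rw [hd_leaf] at this
      exact this
    have hLB : LB S N (τ l) (path m) = (LB S N l (path m) + width i / 3) % width i := by
      unfold LB
      split_ifs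
      · exact hl.rot l
      · rw [hl.comm]
        exact hl.rot (S.σ l)
    rw [hd_leaf, hLB, hw3, hw]
    generalize LB S N l (path m) = x
    generalize rm (path m) = r at hr
    have e1 : x * 2 ^ (3 + 1) + r + width i / 3 * 16 = 16 * (x + width i / 3) + r := by ring
    rw [e1, mul_comm (width i) 16, Nat.mod_mul]
    have e2 : (16 * (x + width i / 3) + r) % 16 = r := by omega
    have e3 : (16 * (x + width i / 3) + r) / 16 = x + width i / 3 := by omega
    rw [e2, e3]
    ring

end Pool.Agent.N366.RS
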