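import Pool.Agent.N366.RS.LabStep

set_option autoImplicit false

namespace Pool.Agent.N366.RS

/-- the hexagon permutation -/
def σp : Equiv.Perm (Fin 6) where
  toFun := ![5, 4, 1, 0, 3, 2]
  invFun := ![3, 2, 5, 4, 1, 0]
  left_inv := by decide
  right_inv := by decide

def τp : Equiv.Perm (Fin 6) where
  toFun := ![2, 3, 4, 5, 0, 1]
  invFun := ![4, 5, 0, 1, 2, 3]
  left_inv := by decide
  right_inv := by decide

/-- the Petersen graph -/
def pet : Sys (Fin 10) (Fin 9) (Fin 6) where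
  s := ![1, 2, 3, 4, 5, 6, 7, 8, 9]
  t := ![0, 0, 0, 1, 1, 2, 2, 3, 3]
  src := ![4, 5, 6, 7, 8, 9]
  σ := σp
  inc v k := (![![.up 0, .up 1, .up 2], ![.up 0, .up 3, .up 4], ![.up 1, .up 5, .up 6],
    ![.up 2, .up 7, .up 8], ![.up 3, .out 0, .inn 3], ![.up 4, .out 1, .inn 2],
    ![.up 5, .out 2, .inn 5], ![.up 6, .out 3, .inn 4], ![.up 7, .out 4, .inn 1],
    ![.up 8, .out 5, .inn 0]] : Fin 10 → Fin 3 → Half (Fin 9) (Fin 6)) v k

instance instDecEqHalf : DecidableEq (Half (Fin 9) (Fin 6)) := by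
  intro a b
  rcases a with a | a | a <;> rcases b with b | b | b
  · exact decidable_of_iff (a = b) (by simp)
  · exact isFalse (by simp)
  · exact isFalse (by simp)
  · exact isFalse (by simp)
  · exact decidable_of_iff (a = b) (by simp)
  · exact isFalse (by simp)
  · exact isFalse (by simp)
  · exact isFalse (by simp)
  · exact decidable_of_iff (a = b) (by simp)

theorem pet_base : Base pet where
  ne := by decide
  s1 := by decide
  s2 := by decide
  inj := by decide
  inc_inj := by decide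
  inc_iff := by
    intro v h
    rcases h with e | l | l
    · revert v e
      simp only [At]
      decide
    · revert v l
      simp only [At]
      decide
    · revert v l
      simp only [At]
      decide
  shape := by
    intro v
    fin_cases v
    · left; decide
    · left; decide
    · left; decide
    · left; decide
    · right; exact ⟨3, 0, rfl, rfl, rfl, rfl⟩
    · right; exact ⟨4, 1, rfl, rfl, rfl, rfl⟩
    · right; exact ⟨5, 2, rfl, rfl, rfl, rfl⟩
    · right; exact ⟨6, 3, rfl, rfl, rfl, rfl⟩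
    · right; exact ⟨7, 4, rfl, rfl, rfl, rfl⟩
    · right; exact ⟨8, 5, rfl, rfl, rfl, rfl⟩

/-- adjacency of the Petersen graph -/
def PA (u v : Fin 10) : Bool :=
  (List.finRange 9).any (fun e => (decide (pet.s e = u) && decide (pet.t e = v)) ||
    (decide (pet.s e = v) && decide (pet.t e = u))) ||
  (List.finRange 6).any (fun l => (decide (pet.src l = u) && decide (pet.src (pet.σ l) = v)) ||
    (decide (pet.src l = v) && decide (pet.src (pet.σ l) = u)))

theorem PA_iff {u v : Fin 10} (h : Ad pet u v) : PA u v = true := by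
  rcases h with ⟨e, h | h⟩ | ⟨l, h | h⟩
  · simp only [PA, Bool.or_eq_true, List.any_eq_true]
    exact Or.inl ⟨e, by simp, Or.inl (by simp [h.1, h.2])⟩
  · simp only [PA, Bool.or_eq_true, List.any_eq_true]
    exact Or.inl ⟨e, by simp, Or.inr (by simp [h.1, h.2])⟩
  · simp only [PA, Bool.or_eq_true, List.any_eq_true]
    exact Or.inr ⟨l, by simp, Or.inl (by simp [h.1, h.2])⟩
  · simp only [PA, Bool.or_eq_true, List.any_eq_true]
    exact Or.inr ⟨l, by simp, Or.inr (by simp [h.1, h.2])⟩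

theorem P_tri : ∀ a b, PA a b = true → ∀ c, PA b c = true → PA c a = false := by decide +kernel
theorem P_quad : ∀ a b, PA a b = true → ∀ c, PA b c = true → a ≠ c → ∀ d, PA c d = true → b ≠ d →
    PA d a = false := by decide +kernel

theorem pet_gir : Gir pet where
  tri a b c h1 h2 h3 := by
    have := P_tri a b (PA_iff h1) c (PA_iff h2)
    rw [PA_iff h3] at this
    exact Bool.noConfusion this
  quad a b c d hac hbd h1 h2 h3 h4 := by
    have := P_quad a b (PA_iff h1) c (PA_iff h2) hac d (PA_iff h3) hbd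
    rw [PA_iff h4] at this
    exact Bool.noConfusion this

/-- the colouring check: `x` are the colours of the hexagon -/
theorem pet_col : ∀ x0 ∈ [f1, f2, f3], ∀ x1 ∈ [f1, f2, f3], ∀ x2 ∈ [f1, f2, f3],
    ∀ x3 ∈ [f1, f2, f3], ∀ x4 ∈ [f1, f2, f3], ∀ x5 ∈ [f1, f2, f3],
    (eqz (xr x0 x3) || eqz (xr x1 x2) || eqz (xr x2 x5) || eqz (xr x3 x4) || eqz (xr x4 x1) ||
      eqz (xr x5 x0) || eqz (xr (xr x0 x3) (xr x1 x2)) || eqz (xr (xr x2 x5) (xr x3 x4)) ||
      eqz (xr (xr x4 x1) (xr x5 x0))) = true := by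
  decide +kernel

theorem pet_unc : Unc pet := by
  intro f x hc
  have k0 : f 3 = xr (x 0) (x 3) := xr_iff _ _ _ (hc.sum 4)
  have k1 : f 4 = xr (x 1) (x 2) := xr_iff _ _ _ (hc.sum 5)
  have k2 : f 5 = xr (x 2) (x 5) := xr_iff _ _ _ (hc.sum 6)
  have k3 : f 6 = xr (x 3) (x 4) := xr_iff _ _ _ (hc.sum 7)
  have k4 : f 7 = xr (x 4) (x 1) := xr_iff _ _ _ (hc.sum 8)
  have k5 : f 8 = xr (x 5) (x 0) := xr_iff _ _ _ (hc.sum 9)
  have m0 : f 0 = xr (f 3) (f 4) := xr_iff _ _ _ (hc.sum 1)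
  have m1 : f 1 = xr (f 5) (f 6) := xr_iff _ _ _ (hc.sum 2)
  have m2 : f 2 = xr (f 7) (f 8) := xr_iff _ _ _ (hc.sum 3)
  have h := pet_col (x 0) (mem_f (hc.x0 0)) (x 1) (mem_f (hc.x0 1)) (x 2) (mem_f (hc.x0 2))
    (x 3) (mem_f (hc.x0 3)) (x 4) (mem_f (hc.x0 4)) (x 5) (mem_f (hc.x0 5))
  rw [← k0, ← k1, ← k2, ← k3, ← k4, ← k5, ← m0, ← m1, ← m2] at h
  simp only [Bool.or_eq_true, eqz_iff] at h
  have := hc.f0
  rcases h with (((((((h | h) | h) | h) | h) | h) | h) | h) | h <;> exact this _ h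

def costP (b : Fin 10 → Bool) : ℕ :=
  dl (b 1) (b 0) + dl (b 2) (b 0) + dl (b 3) (b 0) + dl (b 4) (b 1) + dl (b 5) (b 1) +
  dl (b 6) (b 2) + dl (b 7) (b 2) + dl (b 8) (b 3) + dl (b 9) (b 3) +
  dl (b 4) (b 9) + dl (b 5) (b 8) + dl (b 6) (b 5) + dl (b 7) (b 4) + dl (b 8) (b 7) +
  dl (b 9) (b 6)

theorem costP_eq (b : Fin 10 → Bool) : cost pet b = costP b := by
  unfold cost costP
  rw [Fin.sum_univ_def, Fin.sum_univ_def]
  have h1 : (List.map (fun e => dl (b (pet.s e)) (b (pet.t e))) (List.finRange 9)).sum =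
    dl (b 1) (b 0) + (dl (b 2) (b 0) + (dl (b 3) (b 0) + (dl (b 4) (b 1) + (dl (b 5) (b 1) +
    (dl (b 6) (b 2) + (dl (b 7) (b 2) + (dl (b 8) (b 3) + (dl (b 9) (b 3) + 0)))))))) := rfl
  have h2 : (List.map (fun l => dl (b (pet.src l)) (b (pet.src (pet.σ l)))) (List.finRange 6)).sum =
    dl (b 4) (b 9) + (dl (b 5) (b 8) + (dl (b 6) (b 5) + (dl (b 7) (b 4) + (dl (b 8) (b 7) +
    (dl (b 9) (b 6) + 0))))) := rfl
  rw [h1, h2]
  omega

theorem costP_chk : ∀ b0 b1 b2 b3 b4 b5 b6 b7 b8 b9 : Bool,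
    dl (b1) (b0) + dl (b2) (b0) + dl (b3) (b0) + dl (b4) (b1) + dl (b5) (b1) +
    dl (b6) (b2) + dl (b7) (b2) + dl (b8) (b3) + dl (b9) (b3) +
    dl (b4) (b9) + dl (b5) (b8) + dl (b6) (b5) + dl (b7) (b4) + dl (b8) (b7) +
    dl (b9) (b6) ≤ 3 →
    b0.toNat + b1.toNat + b2.toNat + b3.toNat + b4.toNat + b5.toNat + b6.toNat + b7.toNat +
      b8.toNat + b9.toNat ≤ 1 ∨
    (!b0).toNat + (!b1).toNat + (!b2).toNat + (!b3).toNat + (!b4).toNat + (!b5).toNat +
      (!b6).toNat + (!b7).toNat + (!b8).toNat + (!b9).toNat ≤ 1 := by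
  decide +kernel

theorem pair_of_sum (b : Fin 10 → Bool)
    (h : (b 0).toNat + (b 1).toNat + (b 2).toNat + (b 3).toNat + (b 4).toNat + (b 5).toNat +
      (b 6).toNat + (b 7).toNat + (b 8).toNat + (b 9).toNat ≤ 1) :
    ∀ u v, b u = true → b v = true → u = v := by
  intro u v hu hv
  by_contra hne
  have h4 : ∑ i ∈ ({u, v} : Finset (Fin 10)), (b i).toNat ≤ ∑ i, (b i).toNat :=
    Finset.sum_le_sum_of_subset (Finset.subset_univ _)
  rw [Finset.sum_pair hne, hu, hv] at h4
  have h5 : ∑ i, (b i).toNat = (b 0).toNat + (b 1).toNat + (b 2).toNat + (b 3).toNat +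
      (b 4).toNat + (b 5).toNat + (b 6).toNat + (b 7).toNat + (b 8).toNat + (b 9).toNat := by
    rw [Fin.sum_univ_def]
    have : (List.map (fun i => (b i).toNat) (List.finRange 10)).sum =
      (b 0).toNat + ((b 1).toNat + ((b 2).toNat + ((b 3).toNat + ((b 4).toNat + ((b 5).toNat +
      ((b 6).toNat + ((b 7).toNat + ((b 8).toNat + ((b 9).toNat + 0))))))))) := rfl
    rw [this]
    omega
  rw [h5] at h4
  simp only [Bool.toNat_true] at h4
  omega

theorem pet_c4 : C4 pet := by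
  intro b hb
  rw [costP_eq] at hb
  rcases costP_chk _ _ _ _ _ _ _ _ _ _ hb with h | h
  · exact ⟨false, fun u v hu hv => pair_of_sum b h u v (by simpa using hu) (by simpa using hv)⟩
  · exact ⟨true, fun u v hu hv => pair_of_sum (fun i => !b i) h u v (by simpa using hu)
      (by simpa using hv)⟩

def Np (v : Fin 10) : ℕ × ℕ :=
  (![(0, 0), (1, 0), (1, 1), (1, 2), (2, 0), (2, 1), (2, 2), (2, 3), (2, 4), (2, 5)] :
    Fin 10 → ℕ × ℕ) v

theorem Np_surj : ∀ a < 3, ∀ b < width a, ∃ v, Np v = (a, b) := by decide +kernel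

theorem pet_lab : Lab pet 2 Np τp where
  hi := le_rfl
  inj := by decide +kernel
  rng := by decide +kernel
  surj := by
    rintro ⟨a, b⟩ h1 h2
    simp only at h1 h2
    exact Np_surj a (by omega) b h2
  s_inj := by decide
  chd := by
    intro e
    unfold IsChild
    revert e
    decide
  par := by decide
  leaf := by decide
  leaf' := by decide
  comm := by decide
  rot := by decide +kernel

end Pool.Agent.N366.RS
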